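import Pool.Agent.Work.MP_62db8e_nt.Check
/-! The kernel checks. -/
namespace MinOverlap
theorem chk0 : allCols chkP (chkD dg0) cols0 cols0 0 = true := by decide +kernel
theorem chk1 : allCols chkP (chkD dg1) cols1 cols1 0 = true := by decide +kernel

theorem len0 : cols0.length = 241 := by decide +kernel
theorem len1 : cols1.length = 241 := by decide +kernel
end MinOverlap
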