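import Mathlib
/-! Combinatorial part: averaging over shifted grids of cells. -/
namespace MinOverlap
open Finset

/-- Sum of `f` over the cell number `i` of the grid with shift `τ`. -/
def cell (f : ℕ → ℤ) (X L τ i : ℕ) : ℤ := ∑ s ∈ range X, if (s + τ) / L = i then f s else 0

theorem cell_lin (f : ℕ → ℤ) (X L τ M : ℕ) (hM : ∀ s < X, (s + τ) / L < M) (φ : ℕ → ℤ) :
    ∑ i ∈ range M, φ i * cell f X L τ i = ∑ s ∈ range X, φ ((s + τ) / L) * f s := by
  unfold cell
  simp only [Finset.mul_sum]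
  rw [Finset.sum_comm]
  refine Finset.sum_congr rfl fun s hs => ?_
  rw [mem_range] at hs
  simp only [mul_ite, mul_zero]
  rw [Finset.sum_ite_eq, if_pos (mem_range.2 (hM s hs))]

theorem cell_bilin (W : ℕ → ℤ) (f g : ℕ → ℤ) (X L τ M : ℕ) (hM : ∀ s < X, (s + τ) / L < M) :
    ∑ i ∈ range M, ∑ j ∈ range M, W (j - i) * (cell f X L τ i * cell g X L τ j)
      = ∑ s ∈ range X, ∑ t ∈ range X, W ((t + τ) / L - (s + τ) / L) * (f s * g t) := by
  have h1 : ∀ i ∈ range M, ∑ j ∈ range M, W (j - i) * (cell f X L τ i * cell g X L τ j)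
      = (∑ t ∈ range X, W ((t + τ) / L - i) * g t) * cell f X L τ i := by
    intro i _
    rw [← cell_lin g X L τ M hM (fun j => W (j - i)), Finset.sum_mul]
    exact Finset.sum_congr rfl fun j _ => by ring
  rw [Finset.sum_congr rfl h1,
    cell_lin f X L τ M hM (fun i => ∑ t ∈ range X, W ((t + τ) / L - i) * g t)]
  refine Finset.sum_congr rfl fun s _ => ?_
  rw [Finset.sum_mul]
  exact Finset.sum_congr rfl fun t _ => by ring

theorem per_sum (f : ℕ → ℤ) (L : ℕ) (hf : ∀ x, f (x + L) = f x) (m : ℕ) :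
    ∑ τ ∈ range L, f (m + τ) = ∑ τ ∈ range L, f τ := by
  induction m with
  | zero => simp
  | succ m ih =>
    have h1 := Finset.sum_range_succ (fun τ => f (m + τ)) L
    have h2 := Finset.sum_range_succ' (fun τ => f (m + τ)) L
    rw [h1] at h2
    have h3 : ∑ τ ∈ range L, f (m + 1 + τ) = ∑ τ ∈ range L, f (m + (τ + 1)) :=
      Finset.sum_congr rfl fun τ _ => by congr 1; ring
    rw [h3]
    have h4 := hf m
    rw [add_zero] at h2
    linarith

/-- The smoothed weight. -/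
def Wt (W : ℕ → ℤ) (L p : ℕ) : ℤ := ∑ r ∈ range L, W ((r + p) / L)

theorem Wt_zero (W : ℕ → ℤ) (hW : W 0 = 0) (L : ℕ) : Wt W L 0 = 0 := by
  unfold Wt
  refine Finset.sum_eq_zero fun r hr => ?_
  rw [mem_range] at hr
  rw [add_zero, Nat.div_eq_of_lt hr, hW]

theorem tent (W : ℕ → ℤ) (hW : W 0 = 0) (L o s t : ℕ) (hL : 0 < L) :
    ∑ τ ∈ range L, W ((t + (τ + o)) / L - (s + (τ + o)) / L) = Wt W L (t - s) := by
  rcases le_or_gt s t with h | h
  · obtain ⟨p, rfl⟩ := Nat.exists_eq_add_of_le h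
    have hf : ∀ x, (fun x => W ((x + p) / L - x / L)) (x + L) = (fun x => W ((x + p) / L - x / L)) x := by
      intro x
      dsimp only
      have e1 : (x + L + p) / L = (x + p) / L + 1 := by
        rw [show x + L + p = (x + p) + L by ring, Nat.add_div_right _ hL]
      have e2 : (x + L) / L = x / L + 1 := Nat.add_div_right _ hL
      rw [e1, e2, Nat.add_sub_add_right]
    have h1 := per_sum (fun x => W ((x + p) / L - x / L)) L hf (s + o)
    have h2 : ∑ τ ∈ range L, W ((s + p + (τ + o)) / L - (s + (τ + o)) / L)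
        = ∑ τ ∈ range L, (fun x => W ((x + p) / L - x / L)) (s + o + τ) := by
      refine Finset.sum_congr rfl fun τ _ => ?_
      dsimp only
      rw [show s + p + (τ + o) = s + o + τ + p by ring, show s + (τ + o) = s + o + τ by ring]
    rw [h2, h1, Nat.add_sub_cancel_left]
    unfold Wt
    refine Finset.sum_congr rfl fun r hr => ?_
    rw [mem_range] at hr
    rw [Nat.div_eq_of_lt hr, Nat.sub_zero]
  · rw [show t - s = 0 by omega, Wt_zero W hW]
    refine Finset.sum_eq_zero fun τ _ => ?_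
    have : (t + (τ + o)) / L ≤ (s + (τ + o)) / L := Nat.div_le_div_right (by omega)
    rw [Nat.sub_eq_zero_of_le this, hW]

/-- overlap numbers -/
def Op (f g : ℕ → ℤ) (X p : ℕ) : ℤ := ∑ s ∈ range X, f s * g (s + p)

theorem sum_range_split (F : ℕ → ℤ) (a b : ℕ) :
    ∑ x ∈ range (a + b), F x = ∑ x ∈ range a, F x + ∑ x ∈ range b, F (a + x) :=
  Finset.sum_range_add F a b

theorem row_shift (W : ℕ → ℤ) (hW : W 0 = 0) (L X s : ℕ) (hs : s < X) (g : ℕ → ℤ) (hg : ∀ x, X ≤ x → g x = 0) :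
    ∑ t ∈ range X, Wt W L (t - s) * g t = ∑ p ∈ range X, Wt W L p * g (s + p) := by
  obtain ⟨d, rfl⟩ := Nat.exists_eq_add_of_le hs.le
  have h1 := sum_range_split (fun t => Wt W L (t - s) * g t) s d
  have h2 : ∑ x ∈ range s, Wt W L (x - s) * g x = 0 := by
    refine Finset.sum_eq_zero fun x hx => ?_
    rw [mem_range] at hx
    rw [show x - s = 0 by omega, Wt_zero W hW, zero_mul]
  rw [h1, h2, zero_add]
  have h3 := sum_range_split (fun p => Wt W L p * g (s + p)) d s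
  rw [add_comm s d, h3]
  have h4 : ∑ x ∈ range s, Wt W L (d + x) * g (s + (d + x)) = 0 := by
    refine Finset.sum_eq_zero fun x _ => ?_
    rw [hg _ (by omega), mul_zero]
  rw [h4, add_zero]
  refine Finset.sum_congr rfl fun x _ => ?_
  rw [Nat.add_sub_cancel_left]

/-- Sum over the grids of the weighted cell overlaps. -/
theorem sum_P (W : ℕ → ℤ) (hW : W 0 = 0) (L o X : ℕ) (hL : 0 < L) (f g : ℕ → ℤ) (hg : ∀ x, X ≤ x → g x = 0) :
    ∑ τ ∈ range L, ∑ s ∈ range X, ∑ t ∈ range X,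
        W ((t + (τ + o)) / L - (s + (τ + o)) / L) * (f s * g t)
      = ∑ p ∈ range X, Wt W L p * Op f g X p := by
  rw [Finset.sum_comm]
  have h1 : ∀ s ∈ range X, ∑ τ ∈ range L, ∑ t ∈ range X,
        W ((t + (τ + o)) / L - (s + (τ + o)) / L) * (f s * g t)
      = ∑ p ∈ range X, Wt W L p * (f s * g (s + p)) := by
    intro s hs
    rw [Finset.sum_comm]
    have h2 : ∀ t ∈ range X, ∑ τ ∈ range L, W ((t + (τ + o)) / L - (s + (τ + o)) / L) * (f s * g t)
        = f s * (Wt W L (t - s) * g t) := by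
      intro t _
      rw [← Finset.sum_mul, tent W hW L o s t hL]; ring
    rw [Finset.sum_congr rfl h2, ← Finset.mul_sum, row_shift W hW L X s (mem_range.1 hs) g hg, Finset.mul_sum]
    exact Finset.sum_congr rfl fun p _ => by ring
  rw [Finset.sum_congr rfl h1, Finset.sum_comm]
  refine Finset.sum_congr rfl fun p _ => ?_
  unfold Op
  rw [Finset.mul_sum]

theorem sum_block (h : ℕ → ℤ) (N L : ℕ) :
    ∑ x ∈ range (N * L), h x = ∑ i ∈ range N, ∑ ρ ∈ range L, h (i * L + ρ) := by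
  induction N with
  | zero => simp
  | succ N ih => rw [Nat.succ_mul, sum_range_split, ih, Finset.sum_range_succ]

/-- shift formula -/
theorem sum_shift (φ : ℕ → ℤ) (N L τ : ℕ) (hL : 0 < L) (hτ : τ ≤ L) :
    ∑ s ∈ range (N * L), φ ((s + τ) / L) = L * ∑ i ∈ range N, φ i + τ * (φ N - φ 0) := by
  have h1 := sum_range_split (fun x => φ (x / L)) τ (N * L)
  have h2 := sum_range_split (fun x => φ (x / L)) (N * L) τ
  rw [add_comm (N * L) τ, h1] at h2
  have h3 : ∑ x ∈ range τ, φ (x / L) = τ * φ 0 := by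
    rw [Finset.sum_congr rfl (fun x hx => by
      rw [mem_range] at hx
      rw [Nat.div_eq_of_lt (lt_of_lt_of_le hx hτ)] : ∀ x ∈ range τ, φ (x / L) = φ 0)]
    simp
  have h4 : ∑ x ∈ range τ, φ ((N * L + x) / L) = τ * φ N := by
    rw [Finset.sum_congr rfl (fun x hx => by
      rw [mem_range] at hx
      rw [mul_comm, Nat.mul_add_div hL, Nat.div_eq_of_lt (lt_of_lt_of_le hx hτ), add_zero] :
        ∀ x ∈ range τ, φ ((N * L + x) / L) = φ N)]
    simp
  have h5 : ∑ x ∈ range (N * L), φ (x / L) = L * ∑ i ∈ range N, φ i := by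
    rw [sum_block, Finset.mul_sum]
    refine Finset.sum_congr rfl fun i _ => ?_
    rw [Finset.sum_congr rfl (fun ρ hρ => by
      rw [mem_range] at hρ
      rw [mul_comm, Nat.mul_add_div hL, Nat.div_eq_of_lt hρ, add_zero] :
        ∀ ρ ∈ range L, φ ((i * L + ρ) / L) = φ i)]
    simp
  rw [h3, h4, h5] at h2
  have h6 : ∑ s ∈ range (N * L), φ ((s + τ) / L) = ∑ x ∈ range (N * L), φ ((τ + x) / L) :=
    Finset.sum_congr rfl fun x _ => by rw [add_comm]
  rw [h6]
  linarith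

theorem sum_Wt (W : ℕ → ℤ) (N L : ℕ) (hW : W 0 = 0) (hWN : W N = 0) (hL : 0 < L) :
    ∑ p ∈ range (N * L), Wt W L p = L * (L * ∑ i ∈ range N, W i) := by
  unfold Wt
  rw [Finset.sum_comm]
  have h1 : ∀ r ∈ range L, ∑ p ∈ range (N * L), W ((r + p) / L) = L * ∑ i ∈ range N, W i := by
    intro r hr
    rw [mem_range] at hr
    have h2 := sum_shift W N L r hL hr.le
    rw [hW, hWN, sub_self, mul_zero, add_zero] at h2
    rw [← h2]
    exact Finset.sum_congr rfl fun p _ => by rw [add_comm]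
  rw [Finset.sum_congr rfl h1, Finset.sum_const, card_range, nsmul_eq_mul]

/-- lower bound for the smoothed weight -/
theorem Wt_lower (W : ℕ → ℤ) (L j σ : ℕ) (hL : 0 < L) (hσ : σ ≤ L) (κ : ℤ) (h0 : κ ≤ W j) (h1 : κ ≤ W (j + 1)) :
    L * κ ≤ Wt W L (j * L + σ) := by
  unfold Wt
  have : ∀ r ∈ range L, κ ≤ W ((r + (j * L + σ)) / L) := by
    intro r hr
    rw [mem_range] at hr
    have e : r + (j * L + σ) = L * j + (r + σ) := by ring
    rw [e, Nat.mul_add_div hL]
    have h2 : (r + σ) / L < 2 := by rw [Nat.div_lt_iff_lt_mul hL]; omega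
    interval_cases hq : (r + σ) / L
    · simpa using h0
    · exact h1
  calc (L : ℤ) * κ = ∑ _r ∈ range L, κ := by simp
    _ ≤ _ := Finset.sum_le_sum this

section main
variable (N L : ℕ) (a b : ℕ → ℤ)

/-- cumulative imbalance -/
def Sc (a b : ℕ → ℤ) (p : ℕ) : ℤ := ∑ s ∈ range p, (a s - b s)

theorem D_formula (X : ℕ) (ha : ∀ x, X ≤ x → a x = 0) (hb : ∀ x, X ≤ x → b x = 0)
    (hab : ∀ x < X, a x + b x = 1) (hS : Sc a b X = 0) (p : ℕ) (hp : p ≤ X) :
    2 * (Op a b X p - Op b a X p) = Sc a b (X - p) + Sc a b p := by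
  obtain ⟨d, rfl⟩ := Nat.exists_eq_add_of_le hp
  rw [Nat.add_sub_cancel_left]
  unfold Op
  rw [← Finset.sum_sub_distrib]
  have h1 := sum_range_split (fun s => a s * b (s + p) - b s * a (s + p)) d p
  rw [add_comm d p] at h1
  rw [h1]
  have h2 : ∑ x ∈ range p, (a (d + x) * b (d + x + p) - b (d + x) * a (d + x + p)) = 0 := by
    refine Finset.sum_eq_zero fun x _ => ?_
    rw [ha (d + x + p) (by omega), hb (d + x + p) (by omega)]; ring
  rw [h2, add_zero]
  have h3 := sum_range_split (fun s => a s - b s) p d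
  unfold Sc at hS
  rw [h3] at hS
  have h4 : ∀ s ∈ range d, 2 * (a s * b (s + p) - b s * a (s + p)) = (a s - b s) - (a (p + s) - b (p + s)) := by
    intro s hs
    rw [mem_range] at hs
    have e1 := hab s (by omega)
    have e2 := hab (s + p) (by omega)
    rw [add_comm p s]
    have e3 : b s = 1 - a s := by linarith
    have e4 : b (s + p) = 1 - a (s + p) := by linarith
    rw [e3, e4]; ring
  rw [Finset.mul_sum, Finset.sum_congr rfl h4, Finset.sum_sub_distrib]
  unfold Sc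
  linarith

/-- ψ as a sum of its decrements. -/
theorem psi_tele (ψ : ℕ → ℤ) (c N : ℕ) (hc : c ≤ N) :
    ψ c = ψ N + ∑ j ∈ range N, (if c ≤ j then ψ j - ψ (j + 1) else 0) := by
  induction N, hc using Nat.le_induction with
  | base =>
    rw [Finset.sum_eq_zero, add_zero]
    intro j hj
    rw [mem_range] at hj
    rw [if_neg (by omega)]
  | succ N hN ih =>
    rw [Finset.sum_range_succ, if_pos hN]
    linarith

/-- the linear functional -/
def Vf (ψ : ℕ → ℤ) (a b : ℕ → ℤ) (N L τ : ℕ) : ℤ :=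
  ∑ s ∈ range (N * L), ψ ((s + τ) / L) * (a s - b s)

theorem idx_le (N L τ s : ℕ) (hL : 0 < L) (hτ : τ ≤ L) (hs : s < N * L) : (s + τ) / L < N + 1 := by
  rw [Nat.div_lt_iff_lt_mul hL, Nat.succ_mul]; omega

theorem Vf_eq (ψ : ℕ → ℤ) (τ : ℕ) (hL : 0 < L) (hτ : τ ≤ L) (hS : Sc a b (N * L) = 0) :
    Vf ψ a b N L τ = ∑ j ∈ range N, (ψ j - ψ (j + 1)) * Sc a b ((j + 1) * L - τ) := by
  unfold Vf
  have h1 : ∀ s ∈ range (N * L), ψ ((s + τ) / L) * (a s - b s)
      = ψ N * (a s - b s) + ∑ j ∈ range N, (ψ j - ψ (j + 1)) * (if s < (j + 1) * L - τ then a s - b s else 0) := by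
    intro s hs
    rw [mem_range] at hs
    have h2 := psi_tele ψ ((s + τ) / L) N (by have := idx_le N L τ s hL hτ hs; omega)
    rw [h2, add_mul, Finset.sum_mul]
    congr 1
    refine Finset.sum_congr rfl fun j hj => ?_
    have h3 : (s + τ) / L ≤ j ↔ s < (j + 1) * L - τ := by
      rw [← Nat.lt_succ_iff, Nat.div_lt_iff_lt_mul hL, Nat.succ_eq_add_one]
      have : τ ≤ (j + 1) * L := by nlinarith
      omega
    by_cases h4 : (s + τ) / L ≤ j
    · rw [if_pos h4, if_pos (h3.1 h4)]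
    · rw [if_neg h4, if_neg (fun h => h4 (h3.2 h))]; ring
  rw [Finset.sum_congr rfl h1, Finset.sum_add_distrib, ← Finset.mul_sum]
  have h5 : ∑ i ∈ range (N * L), (a i - b i) = 0 := hS
  rw [h5, mul_zero, zero_add, Finset.sum_comm]
  refine Finset.sum_congr rfl fun j hj => ?_
  rw [mem_range] at hj
  rw [← Finset.mul_sum]
  congr 1
  unfold Sc
  rw [← Finset.sum_filter]
  refine Finset.sum_congr ?_ fun _ _ => rfl
  ext x
  simp only [mem_filter, mem_range]
  have : (j + 1) * L ≤ N * L := Nat.mul_le_mul_right _ hj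
  omega

theorem Vf_pair (ψ : ℕ → ℤ) (τ : ℕ) (hL : 0 < L) (hτ : τ ≤ L)
    (ha : ∀ x, N * L ≤ x → a x = 0) (hb : ∀ x, N * L ≤ x → b x = 0)
    (hab : ∀ x < N * L, a x + b x = 1) (hS : Sc a b (N * L) = 0)
    (hκ : ∀ j < N, ψ (N - 1 - j) - ψ (N - 1 - j + 1) = ψ j - ψ (j + 1)) :
    Vf ψ a b N L τ + Vf ψ a b N L (L - τ)
      = 2 * ∑ j ∈ range N, (ψ j - ψ (j + 1)) * (Op a b (N * L) (j * L + τ) - Op b a (N * L) (j * L + τ)) := by
  rw [Vf_eq N L a b ψ τ hL hτ hS, Vf_eq N L a b ψ (L - τ) hL (Nat.sub_le _ _) hS]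
  rw [← Finset.sum_range_reflect (fun j => (ψ j - ψ (j + 1)) * Sc a b ((j + 1) * L - τ))]
  rw [← Finset.sum_add_distrib, Finset.mul_sum]
  refine Finset.sum_congr rfl fun j hj => ?_
  rw [mem_range] at hj
  have hp : j * L + τ ≤ N * L := by
    have : (j + 1) * L ≤ N * L := Nat.mul_le_mul_right _ hj
    rw [Nat.succ_mul] at this; omega
  have h1 := D_formula a b (N * L) ha hb hab hS (j * L + τ) hp
  have e1 : (N - 1 - j + 1) * L - τ = N * L - (j * L + τ) := by
    have : N - 1 - j + 1 = N - j := by omega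
    rw [this, Nat.sub_mul]; omega
  have e2 : (j + 1) * L - (L - τ) = j * L + τ := by
    rw [Nat.succ_mul]; omega
  rw [hκ j hj, e1, e2]
  linear_combination (-(ψ j - ψ (j + 1))) * h1

/-- The functional is bounded. -/
theorem Vf_bound (ψ : ℕ → ℤ) (τ : ℕ) (hL : 0 < L) (hτ : τ ≤ L) (hab1 : ∀ x, |a x - b x| ≤ 1)
    (hψ : |ψ N| = |ψ 0|) : |Vf ψ a b N L τ| ≤ L * ∑ i ∈ range N, |ψ i| := by
  unfold Vf
  refine (Finset.abs_sum_le_sum_abs _ _).trans ?_
  have h1 := sum_shift (fun i => |ψ i|) N L τ hL hτ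
  rw [hψ, sub_self, mul_zero, add_zero] at h1
  rw [← h1]
  refine Finset.sum_le_sum fun s _ => ?_
  rw [abs_mul]
  exact mul_le_of_le_one_right (abs_nonneg _) (hab1 s)

theorem Sc_lip (hab1 : ∀ x, |a x - b x| ≤ 1) (p d : ℕ) : |Sc a b (p + d) - Sc a b p| ≤ d := by
  unfold Sc
  rw [sum_range_split, add_sub_cancel_left]
  refine (Finset.abs_sum_le_sum_abs _ _).trans ?_
  calc ∑ x ∈ range d, |a (p + x) - b (p + x)| ≤ ∑ _x ∈ range d, (1 : ℤ) :=
        Finset.sum_le_sum fun x _ => hab1 _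
    _ = d := by simp

theorem Vf_lip (ψ : ℕ → ℤ) (τ d : ℕ) (hL : 0 < L) (hτ : τ + d ≤ L) (hS : Sc a b (N * L) = 0)
    (hab1 : ∀ x, |a x - b x| ≤ 1) (hκ0 : ∀ j < N, 0 ≤ ψ j - ψ (j + 1)) :
    |Vf ψ a b N L (τ + d) - Vf ψ a b N L τ| ≤ d * (ψ 0 - ψ N) := by
  rw [Vf_eq N L a b ψ (τ + d) hL hτ hS, Vf_eq N L a b ψ τ hL (by omega) hS, ← Finset.sum_sub_distrib]
  refine (Finset.abs_sum_le_sum_abs _ _).trans ?_
  have h1 : ∀ j ∈ range N, |(ψ j - ψ (j + 1)) * Sc a b ((j + 1) * L - (τ + d))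
      - (ψ j - ψ (j + 1)) * Sc a b ((j + 1) * L - τ)| ≤ d * (ψ j - ψ (j + 1)) := by
    intro j hj
    rw [mem_range] at hj
    rw [← mul_sub, abs_mul, abs_of_nonneg (hκ0 j hj), mul_comm]
    refine mul_le_mul_of_nonneg_right ?_ (hκ0 j hj)
    have h2 : (j + 1) * L - τ = ((j + 1) * L - (τ + d)) + d := by
      have : L ≤ (j + 1) * L := Nat.le_mul_of_pos_left _ (Nat.succ_pos _)
      omega
    rw [h2, abs_sub_comm]
    exact Sc_lip a b hab1 _ _
  refine (Finset.sum_le_sum h1).trans (le_of_eq ?_)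
  rw [← Finset.mul_sum, Finset.sum_range_sub']

end main

end MinOverlap
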