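import Mathlib
import Pool.Agent.Work.MP_62db8e_nt.Comb
/-! Combinatorial part, second half. -/
namespace MinOverlap
open Finset

section main
variable (N L : ℕ) (a b : ℕ → ℤ)

theorem u_eq (ψ : ℕ → ℤ) (hL : 0 < L)
    (ha : ∀ x, N * L ≤ x → a x = 0) (hb : ∀ x, N * L ≤ x → b x = 0)
    (hab : ∀ x < N * L, a x + b x = 1) (hS : Sc a b (N * L) = 0)
    (hκ : ∀ j < N, ψ (N - 1 - j) - ψ (N - 1 - j + 1) = ψ j - ψ (j + 1)) :
    ∑ τ ∈ range L, (Vf ψ a b N L τ + Vf ψ a b N L (τ + 1))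
      = 2 * ∑ τ ∈ range L, ∑ j ∈ range N, (ψ j - ψ (j + 1)) *
        (Op a b (N * L) (j * L + τ) - Op b a (N * L) (j * L + τ)) := by
  have h1 : ∑ τ ∈ range L, Vf ψ a b N L (τ + 1) = ∑ τ ∈ range L, Vf ψ a b N L (L - τ) := by
    rw [← Finset.sum_range_reflect (fun τ => Vf ψ a b N L (τ + 1))]
    refine Finset.sum_congr rfl fun τ hτ => ?_
    rw [mem_range] at hτ
    rw [show L - 1 - τ + 1 = L - τ by omega]
  rw [Finset.sum_add_distrib, h1, ← Finset.sum_add_distrib, Finset.mul_sum]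
  refine Finset.sum_congr rfl fun τ hτ => ?_
  rw [mem_range] at hτ
  exact Vf_pair N L a b ψ τ hL hτ.le ha hb hab hS hκ

theorem abs_bound (W ψ : ℕ → ℤ) (H : ℕ) (hN : N = 2 * H) (hH : 0 < H) (hL : 0 < L) (hW0 : ∀ i, 0 ≤ W i)
    (ha : ∀ x, N * L ≤ x → a x = 0) (hb : ∀ x, N * L ≤ x → b x = 0)
    (hab : ∀ x < N * L, a x + b x = 1) (hS : Sc a b (N * L) = 0)
    (hκ : ∀ j < N, ψ (N - 1 - j) - ψ (N - 1 - j + 1) = ψ j - ψ (j + 1))
    (hκ0 : ∀ j < N, 0 ≤ ψ j - ψ (j + 1))
    (hκW : ∀ j < H, ψ j - ψ (j + 1) ≤ W j ∧ ψ j - ψ (j + 1) ≤ W (j + 1)) :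
    L * |∑ τ ∈ range L, (Vf ψ a b N L τ + Vf ψ a b N L (τ + 1))|
      ≤ 4 * ∑ p ∈ range (N * L), Wt W L p * |Op a b (N * L) p - Op b a (N * L) p| := by
  set D : ℕ → ℤ := fun p => Op a b (N * L) p - Op b a (N * L) p with hD
  have hWt0 : ∀ p, 0 ≤ Wt W L p := fun p => Finset.sum_nonneg fun r _ => hW0 _
  rw [u_eq N L a b ψ hL ha hb hab hS hκ, abs_mul, abs_two]
  -- D is symmetric
  have hDsym : ∀ p, p ≤ N * L → D (N * L - p) = D p := by
    intro p hp
    have h1 := D_formula a b (N * L) ha hb hab hS p hp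
    have h2 := D_formula a b (N * L) ha hb hab hS (N * L - p) (Nat.sub_le _ _)
    rw [Nat.sub_sub_self hp] at h2
    have : 2 * D (N * L - p) = 2 * D p := by rw [hD]; dsimp only; linarith
    linarith
  -- triangle inequality
  have h1 : |∑ τ ∈ range L, ∑ j ∈ range N, (ψ j - ψ (j + 1)) * D (j * L + τ)|
      ≤ ∑ τ ∈ range L, ∑ j ∈ range N, (ψ j - ψ (j + 1)) * |D (j * L + τ)| := by
    refine (Finset.abs_sum_le_sum_abs _ _).trans (Finset.sum_le_sum fun τ _ => ?_)
    refine (Finset.abs_sum_le_sum_abs _ _).trans (Finset.sum_le_sum fun j hj => ?_)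
    rw [abs_mul, abs_of_nonneg (hκ0 j (mem_range.1 hj))]
  -- split in the two halves
  have h2 : ∀ τ ∈ range L, ∑ j ∈ range N, (ψ j - ψ (j + 1)) * |D (j * L + τ)|
      = ∑ j ∈ range H, (ψ j - ψ (j + 1)) * |D (j * L + τ)|
        + ∑ j ∈ range H, (ψ j - ψ (j + 1)) * |D (j * L + (L - τ))| := by
    intro τ hτ
    rw [mem_range] at hτ
    rw [hN, show 2 * H = H + H by ring, sum_range_split]
    congr 1
    rw [← Finset.sum_range_reflect (fun x => (ψ (H + x) - ψ (H + x + 1)) * |D ((H + x) * L + τ)|)]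
    refine Finset.sum_congr rfl fun j hj => ?_
    rw [mem_range] at hj
    have e1 : H + (H - 1 - j) = N - 1 - j := by omega
    rw [e1, hκ j (by omega)]
    congr 2
    have hle : j * L + (L - τ) ≤ N * L := by
      have : (j + 1) * L ≤ N * L := Nat.mul_le_mul_right _ (by omega)
      rw [Nat.succ_mul] at this; omega
    rw [← hDsym _ hle]
    congr 1
    have e2 : N = (N - 1 - j) + (j + 1) := by omega
    have e3 : N * L = (N - 1 - j) * L + (j + 1) * L := by rw [← Nat.add_mul, ← e2]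
    rw [e3, Nat.succ_mul]; omega
  rw [Finset.sum_congr rfl h2, Finset.sum_add_distrib] at h1
  -- each half
  have hhalf1 : L * ∑ τ ∈ range L, ∑ j ∈ range H, (ψ j - ψ (j + 1)) * |D (j * L + τ)|
      ≤ ∑ p ∈ range (N * L), Wt W L p * |D p| := by
    have e1 : ∑ p ∈ range (H * L), Wt W L p * |D p| ≤ ∑ p ∈ range (N * L), Wt W L p * |D p| := by
      refine Finset.sum_le_sum_of_subset_of_nonneg ?_ fun p _ _ => mul_nonneg (hWt0 p) (abs_nonneg _)
      intro p hp
      rw [mem_range] at hp ⊢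
      exact lt_of_lt_of_le hp (Nat.mul_le_mul_right _ (by omega))
    refine le_trans ?_ e1
    rw [sum_block, Finset.sum_comm (s := range L), Finset.mul_sum]
    refine Finset.sum_le_sum fun j hj => ?_
    rw [mem_range] at hj
    rw [Finset.mul_sum]
    refine Finset.sum_le_sum fun τ hτ => ?_
    rw [mem_range] at hτ
    rw [← mul_assoc]
    exact mul_le_mul_of_nonneg_right (Wt_lower W L j τ hL hτ.le _ (hκW j hj).1 (hκW j hj).2) (abs_nonneg _)
  have hhalf2 : L * ∑ τ ∈ range L, ∑ j ∈ range H, (ψ j - ψ (j + 1)) * |D (j * L + (L - τ))|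
      ≤ ∑ p ∈ range (N * L), Wt W L p * |D p| := by
    have e1 : ∑ p ∈ range (H * L), Wt W L (p + 1) * |D (p + 1)| ≤ ∑ p ∈ range (N * L), Wt W L p * |D p| := by
      have e2 : ∑ p ∈ range (H * L + 1), Wt W L p * |D p| ≤ ∑ p ∈ range (N * L), Wt W L p * |D p| := by
        refine Finset.sum_le_sum_of_subset_of_nonneg ?_ fun p _ _ => mul_nonneg (hWt0 p) (abs_nonneg _)
        intro p hp
        rw [mem_range] at hp ⊢
        have : H * L + 1 ≤ N * L := by
          rw [hN]; nlinarith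
        omega
      rw [Finset.sum_range_succ'] at e2
      have := mul_nonneg (hWt0 0) (abs_nonneg (D 0))
      linarith
    refine le_trans ?_ e1
    have e3 : ∀ j ∈ range H, ∑ τ ∈ range L, (ψ j - ψ (j + 1)) * |D (j * L + (L - τ))|
        = ∑ τ ∈ range L, (ψ j - ψ (j + 1)) * |D (j * L + (τ + 1))| := by
      intro j _
      rw [← Finset.sum_range_reflect (fun τ => (ψ j - ψ (j + 1)) * |D (j * L + (τ + 1))|)]
      refine Finset.sum_congr rfl fun τ hτ => ?_
      rw [mem_range] at hτ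
      rw [show L - 1 - τ + 1 = L - τ by omega]
    rw [sum_block, Finset.sum_comm (s := range L), Finset.sum_congr rfl e3, Finset.mul_sum]
    refine Finset.sum_le_sum fun j hj => ?_
    rw [mem_range] at hj
    rw [Finset.mul_sum]
    refine Finset.sum_le_sum fun τ hτ => ?_
    rw [mem_range] at hτ
    rw [← mul_assoc, add_assoc]
    exact mul_le_mul_of_nonneg_right (Wt_lower W L j (τ + 1) hL hτ _ (hκW j hj).1 (hκW j hj).2) (abs_nonneg _)
  have hLnn : (0 : ℤ) ≤ L := Int.natCast_nonneg L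
  have h3 := mul_le_mul_of_nonneg_left h1 hLnn
  rw [mul_add] at h3
  linarith

/-- cell sizes -/
theorem cell_one (τ : ℕ) (hL : 0 < L) (hτ : τ ≤ L) (i : ℕ) (hi : i ≤ N) (hN : 0 < N) :
    cell (fun _ => 1) (N * L) L τ i = if i = 0 then (L : ℤ) - τ else if i = N then (τ : ℤ) else L := by
  have h1 := sum_shift (fun k => if k = i then (1 : ℤ) else 0) N L τ hL hτ
  have h2 : cell (fun _ => 1) (N * L) L τ i = ∑ s ∈ range (N * L), (if (s + τ) / L = i then (1 : ℤ) else 0) := rfl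
  rw [h2, h1, Finset.sum_ite_eq']
  by_cases h0 : i = 0
  · subst h0
    have hN0 : ¬ N = 0 := by omega
    simp [hN, hN0]; ring
  · by_cases hN' : i = N
    · subst hN'
      have a1 : ¬ 0 = i := by omega
      simp [h0, a1]
    · have a1 : ¬ 0 = i := by omega
      have a2 : ¬ N = i := by omega
      have a3 : i < N := by omega
      simp [h0, hN', a1, a2, a3]

theorem cell_abs (τ i : ℕ) (hab1 : ∀ x, |a x - b x| ≤ 1) :
    |cell a (N * L) L τ i - cell b (N * L) L τ i| ≤ cell (fun _ => 1) (N * L) L τ i := by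
  unfold cell
  rw [← Finset.sum_sub_distrib]
  refine (Finset.abs_sum_le_sum_abs _ _).trans (Finset.sum_le_sum fun s _ => ?_)
  split_ifs
  · exact hab1 s
  · simp

/-- The sum of the products of cell sizes. -/
theorem F_eq (W : ℕ → ℤ) (τ : ℕ) (hL : 0 < L) (hτ : τ ≤ L) (hW : W 0 = 0) (hWN : W N = 0) :
    ∑ s ∈ range (N * L), ∑ t ∈ range (N * L), W ((t + τ) / L - (s + τ) / L)
      = (L : ℤ) ^ 2 * ∑ i ∈ range N, ∑ j ∈ range N, W (j - i) := by
  have h1 : ∀ s ∈ range (N * L), ∑ t ∈ range (N * L), W ((t + τ) / L - (s + τ) / L)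
      = (fun i => L * ∑ j ∈ range N, W (j - i) + τ * W (N - i)) ((s + τ) / L) := by
    intro s _
    have h2 := sum_shift (fun j => W (j - (s + τ) / L)) N L τ hL hτ
    dsimp only at h2 ⊢
    rw [h2, Nat.zero_sub, hW, sub_zero]
  rw [Finset.sum_congr rfl h1,
    sum_shift (fun i => L * ∑ j ∈ range N, W (j - i) + τ * W (N - i)) N L τ hL hτ]
  have h3 : ∑ j ∈ range N, W (j - N) = 0 := by
    refine Finset.sum_eq_zero fun j hj => ?_
    rw [mem_range] at hj
    rw [show j - N = 0 by omega, hW]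
  have h4 : ∑ i ∈ range N, W (N - i) = ∑ j ∈ range N, W (j - 0) := by
    have e1 := Finset.sum_range_succ (fun i => W (N - i)) N
    have e2 := Finset.sum_range_reflect (fun i => W i) (N + 1)
    have e3 : ∑ j ∈ range (N + 1), W (N + 1 - 1 - j) = ∑ i ∈ range (N + 1), W (N - i) :=
      Finset.sum_congr rfl fun j _ => by rw [Nat.add_sub_cancel]
    rw [e3] at e2
    have e4 := Finset.sum_range_succ (fun i => W i) N
    rw [Nat.sub_self, hW] at e1
    rw [hWN] at e4
    simp only [Nat.sub_zero]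
    linarith
  rw [h3, Nat.sub_self, hW, Nat.sub_zero, hWN, Finset.sum_add_distrib, ← Finset.mul_sum, ← Finset.mul_sum, h4]
  ring

end main

/-- trapezoid sums -/
theorem trap (A m : ℤ) (k : ℕ) (hk : (k : ℤ) = m) :
    3 * ∑ τ ∈ range k, ((A + τ) ^ 2 + (A + (τ + 1)) ^ 2) = 2 * ((A + m) ^ 3 - A ^ 3) + m := by
  subst hk
  induction k with
  | zero => simp
  | succ k ih =>
    rw [Finset.sum_range_succ, mul_add, ih]; push_cast; ring

end MinOverlap
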