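import Mathlib
import Pool.Agent.Work.MP_62db8e_nt.Comb2
/-! Combinatorial part: assembling the inequality. -/
namespace MinOverlap
open Finset

theorem lin3 (m : ℕ) (c K x y : ℤ) (B C : ℕ → ℤ) :
    ∑ τ ∈ range m, c * (K + x * B τ + y * C τ) = c * (m * K + x * ∑ τ ∈ range m, B τ + y * ∑ τ ∈ range m, C τ) := by
  induction m with
  | zero => simp
  | succ m ih =>
    rw [Finset.sum_range_succ, ih, Finset.sum_range_succ, Finset.sum_range_succ]; push_cast; ring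

theorem var_alg (L VV u r FF : ℤ) (h : VV = FF + 2 * r * u - 2 * L * r ^ 2) :
    2 * L * VV - u ^ 2 ≤ 2 * L * FF := by
  subst h
  nlinarith [sq_nonneg (u - 2 * L * r)]

theorem fin_alg (C1 L A0 SP VV SD T mt S X sF : ℤ)
    (h1 : sF = C1 * (2 * L ^ 3 * A0 - 2 * (2 * SP)) - VV)
    (h2 : 3 * sF ≤ C1 * X) (h3 : 3 * VV ≤ 12 * (C1 * SD) + T)
    (h4 : C1 * SP ≤ C1 * (2 * mt * (L * (L * S)) - SD)) :
    3 * C1 * (2 * L ^ 3 * A0) ≤ 24 * C1 * S * L ^ 2 * mt + C1 * X + T := by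
  subst h1
  have e1 : 12 * (C1 * SP) ≤ 12 * (C1 * (2 * mt * (L * (L * S)) - SD)) := by linarith
  have e2 : 3 * (C1 * (2 * L ^ 3 * A0 - 2 * (2 * SP)) - VV) = 3 * C1 * (2 * L ^ 3 * A0) - 12 * (C1 * SP) - 3 * VV := by ring
  have e3 : 12 * (C1 * (2 * mt * (L * (L * S)) - SD)) = 24 * C1 * S * L ^ 2 * mt - 12 * (C1 * SD) := by ring
  rw [e2] at h2
  rw [e3] at e1
  linarith

theorem rev_cert (N : ℕ) (C1 : ℤ) (W ψ d : ℕ → ℤ) (hψ : ∀ i ≤ N, ψ (N - i) = - ψ i)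
    (hc : ∀ G : ℕ → ℤ, ∑ i ∈ range (N + 1), G i = 0 →
      C1 * ∑ i ∈ range (N + 1), ∑ j ∈ range (N + 1), W (j - i) * (G i * G j)
        ≤ C1 * ∑ i ∈ range (N + 1), d i * G i ^ 2 + (∑ i ∈ range (N + 1), ψ i * G i) ^ 2)
    (G : ℕ → ℤ) (hG : ∑ i ∈ range (N + 1), G i = 0) :
      C1 * ∑ i ∈ range (N + 1), ∑ j ∈ range (N + 1), W (j - i) * (G i * G j)
        ≤ C1 * ∑ i ∈ range (N + 1), d (N - i) * G i ^ 2 + (∑ i ∈ range (N + 1), ψ i * G i) ^ 2 := by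
  have hr : ∀ f : ℕ → ℤ, ∑ i ∈ range (N + 1), f (N - i) = ∑ i ∈ range (N + 1), f i := by
    intro f
    have := Finset.sum_range_reflect f (N + 1)
    simpa using this
  have h1 := hc (fun i => G (N - i)) (by rw [hr]; exact hG)
  have e1 : ∑ i ∈ range (N + 1), d i * G (N - i) ^ 2 = ∑ i ∈ range (N + 1), d (N - i) * G i ^ 2 := by
    rw [← hr (fun i => d i * G (N - i) ^ 2)]
    refine Finset.sum_congr rfl fun i hi => ?_
    rw [mem_range] at hi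
    rw [Nat.sub_sub_self (by omega)]
  have e2 : ∑ i ∈ range (N + 1), ψ i * G (N - i) = - ∑ i ∈ range (N + 1), ψ i * G i := by
    rw [← hr (fun i => ψ i * G (N - i)), ← Finset.sum_neg_distrib]
    refine Finset.sum_congr rfl fun i hi => ?_
    rw [mem_range] at hi
    rw [Nat.sub_sub_self (by omega), hψ i (by omega)]; ring
  have e3 : ∑ i ∈ range (N + 1), ∑ j ∈ range (N + 1), W (j - i) * (G (N - i) * G (N - j))
      = ∑ i ∈ range (N + 1), ∑ j ∈ range (N + 1), W (j - i) * (G i * G j) := by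
    rw [← hr (fun i => ∑ j ∈ range (N + 1), W (j - i) * (G (N - i) * G (N - j)))]
    have e4 : ∀ i ∈ range (N + 1), ∑ j ∈ range (N + 1), W (j - (N - i)) * (G (N - (N - i)) * G (N - j))
        = ∑ j ∈ range (N + 1), W (i - j) * (G i * G j) := by
      intro i hi
      rw [mem_range] at hi
      rw [← hr (fun j => W (j - (N - i)) * (G (N - (N - i)) * G (N - j)))]
      refine Finset.sum_congr rfl fun j hj => ?_
      rw [mem_range] at hj
      rw [Nat.sub_sub_self (by omega : i ≤ N), Nat.sub_sub_self (by omega : j ≤ N),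
        show N - j - (N - i) = i - j by omega]
    rw [Finset.sum_congr rfl e4, Finset.sum_comm]
    exact Finset.sum_congr rfl fun i _ => Finset.sum_congr rfl fun j _ => by ring
  rw [e1, e2, e3, neg_sq] at h1
  exact h1

section main
variable (N L : ℕ) (a b : ℕ → ℤ)

/-- weighted overlap at the grid `τ` -/
def Pg (W : ℕ → ℤ) (a b : ℕ → ℤ) (N L τ : ℕ) : ℤ :=
  ∑ s ∈ range (N * L), ∑ t ∈ range (N * L), W ((t + τ) / L - (s + τ) / L) * (a s * b t)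

theorem per_tau (C1 : ℤ) (hC1 : 0 ≤ C1) (W ψ d : ℕ → ℤ) (τ : ℕ) (hN : 0 < N) (hL : 0 < L) (hτ : τ ≤ L)
    (hW : W 0 = 0) (hWN : W N = 0) (hd : ∀ i, 0 ≤ d i)
    (hab : ∀ x < N * L, a x + b x = 1) (hab1 : ∀ x, |a x - b x| ≤ 1) (hS : Sc a b (N * L) = 0)
    (hc : ∀ G : ℕ → ℤ, ∑ i ∈ range (N + 1), G i = 0 →
      C1 * ∑ i ∈ range (N + 1), ∑ j ∈ range (N + 1), W (j - i) * (G i * G j)
        ≤ C1 * ∑ i ∈ range (N + 1), d i * G i ^ 2 + (∑ i ∈ range (N + 1), ψ i * G i) ^ 2) :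
    C1 * ((L : ℤ) ^ 2 * (∑ i ∈ range N, ∑ j ∈ range N, W (j - i)) - 2 * (Pg W a b N L τ + Pg W b a N L τ))
        - Vf ψ a b N L τ ^ 2
      ≤ C1 * ((L : ℤ) ^ 2 * (∑ i ∈ Ico 1 N, d i) + d 0 * ((L : ℤ) - τ) ^ 2 + d N * (τ : ℤ) ^ 2) := by
  have hM : ∀ s < N * L, (s + τ) / L < N + 1 := fun s hs => idx_le N L τ s hL hτ hs
  set e : ℕ → ℤ := fun s => a s - b s with he
  set G : ℕ → ℤ := fun i => cell e (N * L) L τ i with hGdef
  have hGeq : ∀ i, G i = cell a (N * L) L τ i - cell b (N * L) L τ i := by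
    intro i
    rw [hGdef]
    dsimp only
    unfold cell
    rw [← Finset.sum_sub_distrib]
    refine Finset.sum_congr rfl fun s _ => ?_
    split_ifs
    · rfl
    · simp
  have hGsum : ∑ i ∈ range (N + 1), G i = 0 := by
    have h1 := cell_lin e (N * L) L τ (N + 1) hM (fun _ => 1)
    simp only [one_mul] at h1
    rw [h1]; exact hS
  have hV : ∑ i ∈ range (N + 1), ψ i * G i = Vf ψ a b N L τ := cell_lin e (N * L) L τ (N + 1) hM ψ
  have hQ : ∑ i ∈ range (N + 1), ∑ j ∈ range (N + 1), W (j - i) * (G i * G j)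
      = (L : ℤ) ^ 2 * (∑ i ∈ range N, ∑ j ∈ range N, W (j - i)) - 2 * (Pg W a b N L τ + Pg W b a N L τ) := by
    have h1 := cell_bilin W e e (N * L) L τ (N + 1) hM
    rw [h1, ← F_eq N L W τ hL hτ hW hWN]
    unfold Pg
    rw [← Finset.sum_add_distrib, Finset.mul_sum, ← Finset.sum_sub_distrib]
    refine Finset.sum_congr rfl fun s hs => ?_
    rw [← Finset.sum_add_distrib, Finset.mul_sum, ← Finset.sum_sub_distrib]
    refine Finset.sum_congr rfl fun t ht => ?_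
    have h2 := hab s (mem_range.1 hs)
    have h3 := hab t (mem_range.1 ht)
    have h4 : b s = 1 - a s := by linarith
    have h5 : b t = 1 - a t := by linarith
    rw [he]; dsimp only
    rw [h4, h5]; ring
  have h1 := hc G hGsum
  rw [hQ, hV] at h1
  -- bound of the diagonal part
  have h2 : ∑ i ∈ range (N + 1), d i * G i ^ 2 ≤ ∑ i ∈ range (N + 1), d i * (cell (fun _ => 1) (N * L) L τ i) ^ 2 := by
    refine Finset.sum_le_sum fun i _ => mul_le_mul_of_nonneg_left ?_ (hd i)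
    rw [hGeq]
    exact sq_le_sq' (by have := (abs_le.1 (cell_abs N L a b τ i hab1)).1; linarith)
      (abs_le.1 (cell_abs N L a b τ i hab1)).2
  have h3 : ∑ i ∈ range (N + 1), d i * (cell (fun _ => 1) (N * L) L τ i) ^ 2
      = (L : ℤ) ^ 2 * (∑ i ∈ Ico 1 N, d i) + d 0 * ((L : ℤ) - τ) ^ 2 + d N * (τ : ℤ) ^ 2 := by
    rw [Finset.sum_range_succ, Finset.range_eq_Ico, Finset.sum_eq_sum_Ico_succ_bot hN]
    rw [cell_one N L τ hL hτ 0 (by omega) hN, if_pos rfl, cell_one N L τ hL hτ N le_rfl hN,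
      if_neg (by omega), if_pos rfl]
    have h4 : ∑ k ∈ Ico (0 + 1) N, d k * (cell (fun _ => 1) (N * L) L τ k) ^ 2 = (L : ℤ) ^ 2 * ∑ i ∈ Ico 1 N, d i := by
      rw [Finset.mul_sum]
      refine Finset.sum_congr rfl fun k hk => ?_
      rw [mem_Ico] at hk
      rw [cell_one N L τ hL hτ k (by omega) hN, if_neg (by omega), if_neg (by omega)]; ring
    rw [h4]; ring
  have h5 := mul_le_mul_of_nonneg_left (h2.trans h3.le) hC1
  linarith

end main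

theorem main_ineq (N m H : ℕ) (hm : 0 < m) (hN : N = 2 * H) (hH : 0 < H) (C1 S mt : ℤ) (hC1 : 0 ≤ C1)
    (W ψ d0 d1 : ℕ → ℤ) (a b : ℕ → ℤ)
    (hW : W 0 = 0) (hWN : W N = 0) (hWnn : ∀ i, 0 ≤ W i) (hd0 : ∀ i, 0 ≤ d0 i) (hd1 : ∀ i, 0 ≤ d1 i)
    (hWsum : ∑ i ∈ range N, W i = S)
    (hψ : ∀ i ≤ N, ψ (N - i) = - ψ i)
    (hκ0 : ∀ j < N, 0 ≤ ψ j - ψ (j + 1))
    (hκW : ∀ j < H, ψ j - ψ (j + 1) ≤ W j ∧ ψ j - ψ (j + 1) ≤ W (j + 1))
    (hψB : ∑ i ∈ range N, |ψ i| ≤ C1)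
    (hc0 : ∀ G : ℕ → ℤ, ∑ i ∈ range (N + 1), G i = 0 →
      C1 * ∑ i ∈ range (N + 1), ∑ j ∈ range (N + 1), W (j - i) * (G i * G j)
        ≤ C1 * ∑ i ∈ range (N + 1), d0 i * G i ^ 2 + (∑ i ∈ range (N + 1), ψ i * G i) ^ 2)
    (hc1 : ∀ G : ℕ → ℤ, ∑ i ∈ range (N + 1), G i = 0 →
      C1 * ∑ i ∈ range (N + 1), ∑ j ∈ range (N + 1), W (j - i) * (G i * G j)
        ≤ C1 * ∑ i ∈ range (N + 1), d1 i * G i ^ 2 + (∑ i ∈ range (N + 1), ψ i * G i) ^ 2)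
    (ha : ∀ x, N * (4 * m) ≤ x → a x = 0) (hb : ∀ x, N * (4 * m) ≤ x → b x = 0)
    (hab : ∀ x < N * (4 * m), a x + b x = 1) (hab1 : ∀ x, |a x - b x| ≤ 1)
    (hS : Sc a b (N * (4 * m)) = 0)
    (hmt1 : ∀ p, Op a b (N * (4 * m)) p ≤ mt) (hmt2 : ∀ p, Op b a (N * (4 * m)) p ≤ mt) :
    3 * C1 * (2 * (4 * (m : ℤ)) ^ 3 * (∑ i ∈ range N, ∑ j ∈ range N, W (j - i)))
      ≤ 24 * C1 * S * (4 * (m : ℤ)) ^ 2 * mt
        + C1 * (192 * (m : ℤ) ^ 3 * (∑ i ∈ Ico 1 N, d0 i + ∑ i ∈ Ico 1 N, d1 i)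
          + 2 * (d0 0 * (2 * (m : ℤ) ^ 3 + m) + d0 N * (74 * (m : ℤ) ^ 3 + m)
            + d1 0 * (14 * (m : ℤ) ^ 3 + m) + d1 N * (38 * (m : ℤ) ^ 3 + m)))
        + (ψ 0 - ψ N) ^ 2 * (32 * (m : ℤ) ^ 3 + 4 * m) := by
  set L := 4 * m with hL
  have hLpos : 0 < L := by omega
  have hLZ : (L : ℤ) = 4 * m := by rw [hL]; push_cast; ring
  set A0 := ∑ i ∈ range N, ∑ j ∈ range N, W (j - i) with hA0
  have hNpos : 0 < N := by omega
  set V : ℕ → ℤ := fun τ => Vf ψ a b N L τ with hV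
  set PQ : ℕ → ℤ := fun τ => Pg W a b N L τ + Pg W b a N L τ with hPQ
  set FT : ℕ → ℤ := fun τ => C1 * ((L : ℤ) ^ 2 * A0 - 2 * PQ τ) - V τ ^ 2 with hFT
  have hr0 := rev_cert N C1 W ψ d0 hψ hc0
  have hr1 := rev_cert N C1 W ψ d1 hψ hc1
  have hrevsum : ∀ d : ℕ → ℤ, ∑ i ∈ Ico 1 N, d (N - i) = ∑ i ∈ Ico 1 N, d i := by
    intro d
    have := Finset.sum_Ico_reflect d 1 (show N ≤ N + 1 by omega)
    rw [Nat.add_sub_cancel_left, Nat.add_sub_cancel] at this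
    exact this
  have hF0 : ∀ τ ≤ L, FT τ ≤ C1 * ((L : ℤ) ^ 2 * (∑ i ∈ Ico 1 N, d0 i) + d0 0 * ((L : ℤ) - τ) ^ 2 + d0 N * (τ : ℤ) ^ 2) :=
    fun τ hτ => per_tau N L a b C1 hC1 W ψ d0 τ hNpos hLpos hτ hW hWN hd0 hab hab1 hS hc0
  have hF1 : ∀ τ ≤ L, FT τ ≤ C1 * ((L : ℤ) ^ 2 * (∑ i ∈ Ico 1 N, d1 i) + d1 0 * ((L : ℤ) - τ) ^ 2 + d1 N * (τ : ℤ) ^ 2) :=
    fun τ hτ => per_tau N L a b C1 hC1 W ψ d1 τ hNpos hLpos hτ hW hWN hd1 hab hab1 hS hc1
  have hF0' : ∀ τ ≤ L, FT τ ≤ C1 * ((L : ℤ) ^ 2 * (∑ i ∈ Ico 1 N, d0 i) + d0 N * ((L : ℤ) - τ) ^ 2 + d0 0 * (τ : ℤ) ^ 2) := by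
    intro τ hτ
    have := per_tau N L a b C1 hC1 W ψ (fun i => d0 (N - i)) τ hNpos hLpos hτ hW hWN (fun i => hd0 _) hab hab1 hS hr0
    rw [hrevsum, Nat.sub_zero, Nat.sub_self] at this
    exact this
  have hF1' : ∀ τ ≤ L, FT τ ≤ C1 * ((L : ℤ) ^ 2 * (∑ i ∈ Ico 1 N, d1 i) + d1 N * ((L : ℤ) - τ) ^ 2 + d1 0 * (τ : ℤ) ^ 2) := by
    intro τ hτ
    have := per_tau N L a b C1 hC1 W ψ (fun i => d1 (N - i)) τ hNpos hLpos hτ hW hWN (fun i => hd1 _) hab hab1 hS hr1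
    rw [hrevsum, Nat.sub_zero, Nat.sub_self] at this
    exact this
  -- block lemma
  have hblock : ∀ (k : ℕ) (I x y : ℤ), k < 4 →
      (∀ τ ≤ L, FT τ ≤ C1 * ((L : ℤ) ^ 2 * I + x * ((L : ℤ) - τ) ^ 2 + y * (τ : ℤ) ^ 2)) →
      3 * ∑ τ ∈ range m, (FT (k * m + τ) + FT (k * m + τ + 1))
        ≤ C1 * (6 * m * ((L : ℤ) ^ 2 * I) + x * (2 * ((k * m + m - L : ℤ) ^ 3 - (k * m - L : ℤ) ^ 3) + m)
          + y * (2 * ((k * m + m : ℤ) ^ 3 - (k * m : ℤ) ^ 3) + m)) := by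
    intro k I x y hk hb
    have h1 : ∑ τ ∈ range m, (FT (k * m + τ) + FT (k * m + τ + 1))
        ≤ ∑ τ ∈ range m, (C1 * (2 * ((L : ℤ) ^ 2 * I) + x * (((k * m - L : ℤ) + τ) ^ 2 + ((k * m - L : ℤ) + (τ + 1)) ^ 2)
          + y * (((k * m : ℤ) + τ) ^ 2 + ((k * m : ℤ) + (τ + 1)) ^ 2))) := by
      refine Finset.sum_le_sum fun τ hτ => ?_
      rw [mem_range] at hτ
      have hle : k * m + τ + 1 ≤ L := by
        rw [hL]; nlinarith
      have e1 := hb (k * m + τ) (by omega)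
      have e2 := hb (k * m + τ + 1) hle
      push_cast at e1 e2
      have e3 : C1 * (2 * ((L : ℤ) ^ 2 * I) + x * (((k * m - L : ℤ) + τ) ^ 2 + ((k * m - L : ℤ) + (τ + 1)) ^ 2)
          + y * (((k * m : ℤ) + τ) ^ 2 + ((k * m : ℤ) + (τ + 1)) ^ 2))
          = C1 * ((L : ℤ) ^ 2 * I + x * ((L : ℤ) - (k * m + τ)) ^ 2 + y * ((k : ℤ) * m + τ) ^ 2)
            + C1 * ((L : ℤ) ^ 2 * I + x * ((L : ℤ) - (k * m + τ + 1)) ^ 2 + y * ((k : ℤ) * m + τ + 1) ^ 2) := by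
        ring
      rw [e3]
      exact add_le_add e1 e2
    have h2 : 3 * ∑ τ ∈ range m, (C1 * (2 * ((L : ℤ) ^ 2 * I) + x * (((k * m - L : ℤ) + τ) ^ 2 + ((k * m - L : ℤ) + (τ + 1)) ^ 2)
          + y * (((k * m : ℤ) + τ) ^ 2 + ((k * m : ℤ) + (τ + 1)) ^ 2)))
        = C1 * (6 * m * ((L : ℤ) ^ 2 * I)
          + x * (3 * ∑ τ ∈ range m, (((k * m - L : ℤ) + τ) ^ 2 + ((k * m - L : ℤ) + (τ + 1)) ^ 2))
          + y * (3 * ∑ τ ∈ range m, (((k * m : ℤ) + τ) ^ 2 + ((k * m : ℤ) + (τ + 1)) ^ 2))) := by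
      rw [lin3 m C1 (2 * ((L : ℤ) ^ 2 * I)) x y
        (fun τ => (((k * m - L : ℤ) + τ) ^ 2 + ((k * m - L : ℤ) + (τ + 1)) ^ 2))
        (fun τ => (((k * m : ℤ) + τ) ^ 2 + ((k * m : ℤ) + (τ + 1)) ^ 2))]
      ring
    rw [trap _ m m rfl, trap _ m m rfl] at h2
    have h3 : (3 : ℤ) * ∑ τ ∈ range m, (FT (k * m + τ) + FT (k * m + τ + 1)) ≤ _ :=
      mul_le_mul_of_nonneg_left h1 (by norm_num)
    rw [h2] at h3
    refine h3.trans (le_of_eq ?_)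
    ring
  have hsplit : ∑ τ ∈ range L, (FT τ + FT (τ + 1))
      = ∑ τ ∈ range m, (FT (0 * m + τ) + FT (0 * m + τ + 1)) + ∑ τ ∈ range m, (FT (1 * m + τ) + FT (1 * m + τ + 1))
        + ∑ τ ∈ range m, (FT (2 * m + τ) + FT (2 * m + τ + 1)) + ∑ τ ∈ range m, (FT (3 * m + τ) + FT (3 * m + τ + 1)) := by
    have h1 := sum_block (fun τ => FT τ + FT (τ + 1)) 4 m
    rw [hL, h1]
    simp only [Finset.sum_range_succ, Finset.sum_range_zero, zero_add]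
  have hb0 := hblock 0 _ _ _ (by norm_num) hF0'
  have hb1 := hblock 1 _ _ _ (by norm_num) hF1'
  have hb2 := hblock 2 _ _ _ (by norm_num) hF1
  have hb3 := hblock 3 _ _ _ (by norm_num) hF0
  -- the sum over the grids
  have hsumPQ : ∑ τ ∈ range L, (PQ τ + PQ (τ + 1)) = 2 * ∑ p ∈ range (N * L), Wt W L p * (Op a b (N * L) p + Op b a (N * L) p) := by
    have e1 := sum_P W hW L 0 (N * L) hLpos a b hb
    have e2 := sum_P W hW L 1 (N * L) hLpos a b hb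
    have e3 := sum_P W hW L 0 (N * L) hLpos b a ha
    have e4 := sum_P W hW L 1 (N * L) hLpos b a ha
    have e5 : ∑ τ ∈ range L, (PQ τ + PQ (τ + 1))
        = ∑ τ ∈ range L, Pg W a b N L (τ + 0) + ∑ τ ∈ range L, Pg W a b N L (τ + 1)
          + (∑ τ ∈ range L, Pg W b a N L (τ + 0) + ∑ τ ∈ range L, Pg W b a N L (τ + 1)) := by
      rw [← Finset.sum_add_distrib, ← Finset.sum_add_distrib, ← Finset.sum_add_distrib]
      refine Finset.sum_congr rfl fun τ _ => ?_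
      rw [hPQ]; dsimp only; rw [add_zero]; ring
    have e6 : ∑ p ∈ range (N * L), Wt W L p * (Op a b (N * L) p + Op b a (N * L) p)
        = ∑ p ∈ range (N * L), Wt W L p * Op a b (N * L) p + ∑ p ∈ range (N * L), Wt W L p * Op b a (N * L) p := by
      rw [← Finset.sum_add_distrib]
      exact Finset.sum_congr rfl fun p _ => by ring
    unfold Pg at e5
    rw [e5, e1, e2, e3, e4, e6]; ring
  have hWt0 : ∀ p, 0 ≤ Wt W L p := fun p => Finset.sum_nonneg fun r _ => hWnn _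
  set SD := ∑ p ∈ range (N * L), Wt W L p * |Op a b (N * L) p - Op b a (N * L) p| with hSD
  have hSP : ∑ p ∈ range (N * L), Wt W L p * (Op a b (N * L) p + Op b a (N * L) p)
      ≤ 2 * mt * ((L : ℤ) * (L * S)) - SD := by
    have e1 := sum_Wt W N L hW hWN hLpos
    rw [hWsum] at e1
    rw [← e1, Finset.mul_sum, hSD, ← Finset.sum_sub_distrib]
    refine Finset.sum_le_sum fun p _ => ?_
    have e2 := hmt1 p
    have e3 := hmt2 p
    have e4 : |Op a b (N * L) p - Op b a (N * L) p| ≤ 2 * mt - (Op a b (N * L) p + Op b a (N * L) p) := by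
      rw [abs_le]; constructor <;> linarith
    have e5 := mul_le_mul_of_nonneg_left e4 (hWt0 p)
    linarith
  -- sum of FT
  have hsumFT : ∑ τ ∈ range L, (FT τ + FT (τ + 1))
      = C1 * (2 * (L : ℤ) ^ 3 * A0 - 2 * ∑ τ ∈ range L, (PQ τ + PQ (τ + 1)))
        - ∑ τ ∈ range L, (V τ ^ 2 + V (τ + 1) ^ 2) := by
    have e1 : ∀ τ ∈ range L, FT τ + FT (τ + 1)
        = 2 * (C1 * ((L : ℤ) ^ 2 * A0)) - 2 * C1 * (PQ τ + PQ (τ + 1)) - (V τ ^ 2 + V (τ + 1) ^ 2) := by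
      intro τ _
      rw [hFT]; dsimp only; ring
    rw [Finset.sum_congr rfl e1, Finset.sum_sub_distrib, Finset.sum_sub_distrib, Finset.sum_const, card_range,
      nsmul_eq_mul, ← Finset.mul_sum]
    ring
  -- variance bound
  set u := ∑ τ ∈ range L, (V τ + V (τ + 1)) with hu
  set VV := ∑ τ ∈ range L, (V τ ^ 2 + V (τ + 1) ^ 2) with hVV
  set TV := ψ 0 - ψ N with hTV
  have hTV0 : 0 ≤ TV := by
    have := Finset.sum_range_sub' ψ N
    rw [hTV, ← this]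
    exact Finset.sum_nonneg fun j hj => hκ0 j (mem_range.1 hj)
  have hlip : ∀ τ ≤ L, (V τ - V (2 * m)) ^ 2 ≤ TV ^ 2 * ((-(2 * m) + τ : ℤ)) ^ 2 := by
    intro τ hτ
    have e1 : |V τ - V (2 * m)| ≤ |(-(2 * m) + τ : ℤ)| * TV := by
      rcases le_total τ (2 * m) with h | h
      · obtain ⟨d, hd⟩ := Nat.exists_eq_add_of_le h
        have e2 := Vf_lip N L a b ψ τ d hLpos (by omega) hS hab1 hκ0
        rw [← hd, abs_sub_comm] at e2
        have e3 : |(-(2 * m) + τ : ℤ)| = d := by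
          have : (-(2 * m) + τ : ℤ) = -(d : ℤ) := by
            have : (2 * m : ℤ) = τ + d := by exact_mod_cast hd
            linarith
          rw [this, abs_neg, Nat.abs_cast]
        rw [e3]; exact e2
      · obtain ⟨d, hd⟩ := Nat.exists_eq_add_of_le h
        have e2 := Vf_lip N L a b ψ (2 * m) d hLpos (by omega) hS hab1 hκ0
        rw [← hd] at e2
        have e3 : |(-(2 * m) + τ : ℤ)| = d := by
          have : (-(2 * m) + τ : ℤ) = (d : ℤ) := by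
            have : (τ : ℤ) = 2 * m + d := by exact_mod_cast hd
            linarith
          rw [this, Nat.abs_cast]
        rw [e3]; exact e2
    have e4 := sq_le_sq' (by have := abs_nonneg (V τ - V (2 * m)); have := mul_nonneg (abs_nonneg (-(2 * m) + τ : ℤ)) hTV0; linarith) e1
    rw [sq_abs, mul_pow, sq_abs] at e4
    linarith
  have hvar : 3 * (2 * (L : ℤ) * VV - u ^ 2) ≤ 2 * L * (TV ^ 2 * (32 * (m : ℤ) ^ 3 + 4 * m)) := by
    set r := V (2 * m) with hr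
    set FF := ∑ τ ∈ range L, ((V τ - r) ^ 2 + (V (τ + 1) - r) ^ 2) with hFF
    have e1 : VV = FF + 2 * r * u - 2 * L * r ^ 2 := by
      rw [hVV, hFF, hu, Finset.mul_sum, ← Finset.sum_add_distrib]
      have : (2 * (L : ℤ) * r ^ 2) = ∑ _τ ∈ range L, 2 * r ^ 2 := by
        rw [Finset.sum_const, card_range, nsmul_eq_mul]; ring
      rw [this, ← Finset.sum_sub_distrib]
      exact Finset.sum_congr rfl fun τ _ => by ring
    have e2 : 3 * FF ≤ TV ^ 2 * (32 * (m : ℤ) ^ 3 + 4 * m) := by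
      have e3 : FF ≤ ∑ τ ∈ range L, TV ^ 2 * ((-(2 * m) + τ : ℤ) ^ 2 + (-(2 * m) + (τ + 1) : ℤ) ^ 2) := by
        refine Finset.sum_le_sum fun τ hτ => ?_
        rw [mem_range] at hτ
        have f1 := hlip τ hτ.le
        have f2 := hlip (τ + 1) hτ
        push_cast at f2
        rw [mul_add]
        exact add_le_add f1 f2
      rw [← Finset.mul_sum] at e3
      have e4 := trap (-(2 * m)) (4 * m) L hLZ
      have e5 : 3 * (TV ^ 2 * ∑ τ ∈ range L, ((-(2 * m) + τ : ℤ) ^ 2 + (-(2 * m) + (τ + 1) : ℤ) ^ 2))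
          = TV ^ 2 * (32 * (m : ℤ) ^ 3 + 4 * m) := by
        calc _ = TV ^ 2 * (3 * ∑ τ ∈ range L, ((-(2 * m) + τ : ℤ) ^ 2 + (-(2 * m) + (τ + 1) : ℤ) ^ 2)) := by ring
          _ = _ := by rw [e4]; ring
      linarith
    have hLnn : (0 : ℤ) ≤ L := Int.natCast_nonneg L
    have e6 : 2 * (L : ℤ) * VV - u ^ 2 ≤ 2 * L * FF := var_alg L VV u r FF e1
    have e7 : 3 * (2 * (L : ℤ) * FF) ≤ 2 * L * (TV ^ 2 * (32 * (m : ℤ) ^ 3 + 4 * m)) := by
      have := mul_le_mul_of_nonneg_left e2 (by linarith : (0 : ℤ) ≤ 2 * L)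
      linarith
    linarith
  -- bound of u
  have hκsym : ∀ j < N, ψ (N - 1 - j) - ψ (N - 1 - j + 1) = ψ j - ψ (j + 1) := by
    intro j hj
    have e1 := hψ (j + 1) (by omega)
    have e2 := hψ j (by omega)
    rw [show N - 1 - j = N - (j + 1) by omega, show N - (j + 1) + 1 = N - j by omega, e1, e2]; ring
  have hu1 : L * |u| ≤ 4 * SD := by
    exact abs_bound N L a b W ψ H hN hH hLpos hWnn ha hb hab hS hκsym hκ0 hκW
  have hψN : |ψ N| = |ψ 0| := by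
    have := hψ 0 (Nat.zero_le _)
    rw [Nat.sub_zero] at this
    rw [this, abs_neg]
  have hVb : ∀ τ ≤ L, |V τ| ≤ L * C1 := by
    intro τ hτ
    refine (Vf_bound N L a b ψ τ hLpos hτ hab1 hψN).trans ?_
    exact mul_le_mul_of_nonneg_left hψB (Int.natCast_nonneg L)
  have hu2 : |u| ≤ 2 * L * (L * C1) := by
    rw [hu]
    refine (Finset.abs_sum_le_sum_abs _ _).trans ?_
    have : ∀ τ ∈ range L, |V τ + V (τ + 1)| ≤ 2 * (L * C1) := by
      intro τ hτ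
      rw [mem_range] at hτ
      have f1 := hVb τ hτ.le
      have f2 := hVb (τ + 1) hτ
      have f3 := abs_add_le (V τ) (V (τ + 1))
      linarith
    refine (Finset.sum_le_sum this).trans (le_of_eq ?_)
    rw [Finset.sum_const, card_range, nsmul_eq_mul]; ring
  have hLp : (0 : ℤ) < L := by exact_mod_cast hLpos
  have hu3 : u ^ 2 ≤ 8 * L * (C1 * SD) := by
    have e1 : u ^ 2 = |u| * |u| := by rw [← sq_abs, sq]
    have e2 : |u| * |u| ≤ (2 * L * (L * C1)) * |u| := mul_le_mul_of_nonneg_right hu2 (abs_nonneg _)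
    have e3 : (2 * L * C1) * (L * |u|) ≤ (2 * L * C1) * (4 * SD) :=
      mul_le_mul_of_nonneg_left hu1 (by positivity)
    calc u ^ 2 = |u| * |u| := e1
      _ ≤ (2 * L * (L * C1)) * |u| := e2
      _ = (2 * L * C1) * (L * |u|) := by ring
      _ ≤ (2 * L * C1) * (4 * SD) := e3
      _ = _ := by ring
  have hVVfin : 3 * VV ≤ 12 * (C1 * SD) + TV ^ 2 * (32 * (m : ℤ) ^ 3 + 4 * m) := by
    have e1 : 2 * (L : ℤ) * (3 * VV) ≤ 2 * L * (12 * (C1 * SD) + TV ^ 2 * (32 * (m : ℤ) ^ 3 + 4 * m)) := by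
      linarith
    exact le_of_mul_le_mul_left e1 (by linarith)
  -- conclusion
  have hSP' := mul_le_mul_of_nonneg_left hSP hC1
  have hsum := hsumFT
  rw [hsumPQ] at hsum
  have key : 3 * ∑ τ ∈ range L, (FT τ + FT (τ + 1))
      ≤ C1 * (192 * (m : ℤ) ^ 3 * (∑ i ∈ Ico 1 N, d0 i + ∑ i ∈ Ico 1 N, d1 i)
          + 2 * (d0 0 * (2 * (m : ℤ) ^ 3 + m) + d0 N * (74 * (m : ℤ) ^ 3 + m)
            + d1 0 * (14 * (m : ℤ) ^ 3 + m) + d1 N * (38 * (m : ℤ) ^ 3 + m))) := by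
    rw [hsplit, mul_add, mul_add, mul_add]
    refine (add_le_add (add_le_add (add_le_add hb0 hb1) hb2) hb3).trans (le_of_eq ?_)
    rw [hLZ]; push_cast; ring
  have hfin := fin_alg C1 L A0 _ VV SD (TV ^ 2 * (32 * (m : ℤ) ^ 3 + 4 * m)) mt S _ _ hsum key hVVfin hSP'
  rw [hLZ] at hfin
  exact hfin

end MinOverlap
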