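import Mathlib.Data.Int.Init
import Pool.Agent.Work.MP_62db8e_nt.CertData
/-! Kernel check of the certificate matrix. -/
namespace MinOverlap

def wt (k : ℕ) : ℕ := Nat.mod (Nat.shiftRight wBig (Nat.mul (nat_lit 24) k)) (nat_lit 16777216)
def dg0 (k : ℕ) : ℕ := Nat.mod (Nat.shiftRight dBig0 (Nat.mul (nat_lit 28) k)) (nat_lit 268435456)
def dg1 (k : ℕ) : ℕ := Nat.mod (Nat.shiftRight dBig1 (Nat.mul (nat_lit 28) k)) (nat_lit 268435456)
def psN (k : ℕ) : ℕ := Nat.mod (Nat.shiftRight psiBig (Nat.mul (nat_lit 28) k)) (nat_lit 268435456)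
def psOff : ℕ := nat_lit 134217728

/-- digit of a column -/
def dig (a k : ℕ) : ℕ := Nat.mod (Nat.shiftRight a (Nat.mul (nat_lit 34) k)) (nat_lit 17179869184)
def digOff : ℕ := nat_lit 8589934592

def sumTo (f : ℕ → ℕ) : ℕ → ℕ
  | 0 => 0
  | k + 1 => Nat.add (sumTo f k) (f k)

def pL (a : ℕ) : ℕ := sumTo (fun k => Nat.shiftLeft (dig a k) (Nat.mul (nat_lit 88) k)) (nat_lit 241)
def pR (a : ℕ) : ℕ :=
  sumTo (fun k => Nat.shiftLeft (dig a k) (Nat.mul (nat_lit 88) (Nat.sub (nat_lit 240) k))) (nat_lit 241)
def pS (a : ℕ) : ℕ := sumTo (fun k => dig a k) (nat_lit 241)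

/-- extraction of the middle coefficient -/
def mid (x y : ℕ) : ℕ :=
  Nat.mod (Nat.shiftRight (Nat.mul x y) (nat_lit 21120)) (nat_lit 309485009821345068724781056)

/-- `2 P S Γ` -/
def cG : ℕ := nat_lit 25200000000000000000
/-- `P S` -/
def cPS : ℕ := nat_lit 12600000000
/-- `2 P S` -/
def c2PS : ℕ := nat_lit 25200000000
/-- `2 off ^ 2` -/
def cOff : ℕ := nat_lit 36028797018963968
/-- `241 o ^ 2` -/
def cN : ℕ := nat_lit 17782661287056007757824
def errB : ℕ := nat_lit 6200000000
def errD : ℕ := nat_lit 1494200000000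

def lhs (i j si sj : ℕ) : ℕ :=
  Nat.add (Nat.add cG cOff) (Nat.add (Nat.mul (nat_lit 2) (Nat.mul (psN i) (psN j)))
    (Nat.mul digOff (Nat.add si sj)))
def rhs (i j d : ℕ) : ℕ :=
  Nat.add (Nat.add (Nat.mul cPS (wt (Nat.sub j i))) cN)
    (Nat.add (Nat.mul (nat_lit 268435456) (Nat.add (psN i) (psN j))) d)

def chkPair (i j si sj d : ℕ) : Bool :=
  match Nat.ble (lhs i j si sj) (Nat.add (rhs i j d) errB) with
  | true => Nat.ble (rhs i j d) (Nat.add (lhs i j si sj) errB)
  | false => false

def chkP (i j a b : ℕ) : Bool := chkPair i j (pS a) (pS b) (mid (pL a) (pR b))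

def chkD (dg : ℕ → ℕ) (j a : ℕ) : Bool :=
  Nat.ble (Nat.add (rhs j j (mid (pL a) (pR a))) errD)
    (Nat.add (lhs j j (pS a) (pS a)) (Nat.mul c2PS (dg j)))

/-- `P i j a b` for all entries `a` of the list, numbered from `i`. -/
def allRow (P : ℕ → ℕ → ℕ → ℕ → Bool) (j b : ℕ) : List ℕ → ℕ → Bool
  | [], _ => true
  | a :: rest, i =>
    match P i j a b with
    | true => allRow P j b rest (Nat.succ i)
    | false => false

/-- all pairs of the list. -/
def allCols (P : ℕ → ℕ → ℕ → ℕ → Bool) (Q : ℕ → ℕ → Bool) (all : List ℕ) : List ℕ → ℕ → Bool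
  | [], _ => true
  | b :: rest, j =>
    match allRow P j b (all.take j) 0 with
    | true => match Q j b with
      | true => allCols P Q all rest (Nat.succ j)
      | false => false
    | false => false

theorem allRow_spec (P : ℕ → ℕ → ℕ → ℕ → Bool) (j b : ℕ) (l : List ℕ) : ∀ i0, allRow P j b l i0 = true →
    ∀ t, t < l.length → P (i0 + t) j (l.getD t 0) b = true := by
  induction l with
  | nil => intro i0 _ t ht; exact absurd ht (Nat.not_lt_zero _)
  | cons a rest ih =>
    intro i0 h t ht
    have hcons : allRow P j b (a :: rest) i0 = (match P i0 j a b with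
      | true => allRow P j b rest (Nat.succ i0)
      | false => false) := rfl
    rw [hcons] at h
    have hp : P i0 j a b = true := by
      revert h
      cases P i0 j a b
      · exact fun h => h
      · exact fun _ => rfl
    rw [hp] at h
    rcases t with _ | t
    · exact hp
    · have := ih _ h t (Nat.lt_of_succ_lt_succ ht)
      have e : i0.succ + t = i0 + (t + 1) := by omega
      rw [e] at this
      exact this

theorem allCols_spec (P : ℕ → ℕ → ℕ → ℕ → Bool) (Q : ℕ → ℕ → Bool) (all : List ℕ) (l : List ℕ) :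
    ∀ j0, allCols P Q all l j0 = true →
    ∀ t, t < l.length → (allRow P (j0 + t) (l.getD t 0) (all.take (j0 + t)) 0 = true
      ∧ Q (j0 + t) (l.getD t 0) = true) := by
  induction l with
  | nil => intro j0 _ t ht; exact absurd ht (Nat.not_lt_zero _)
  | cons a rest ih =>
    intro j0 h t ht
    have hcons : allCols P Q all (a :: rest) j0 = (match allRow P j0 a (all.take j0) 0 with
      | true => match Q j0 a with
        | true => allCols P Q all rest (Nat.succ j0)
        | false => false
      | false => false) := rfl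
    rw [hcons] at h
    have hp : allRow P j0 a (all.take j0) 0 = true := by
      revert h
      cases allRow P j0 a (all.take j0) 0
      · exact fun h => h
      · exact fun _ => rfl
    rw [hp] at h
    have hq : Q j0 a = true := by
      revert h
      cases Q j0 a
      · exact fun h => h
      · exact fun _ => rfl
    rw [hq] at h
    rcases t with _ | t
    · exact ⟨hp, hq⟩
    · have := ih _ h t (Nat.lt_of_succ_lt_succ ht)
      have e : j0.succ + t = j0 + (t + 1) := by omega
      rw [e] at this
      exact this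

end MinOverlap
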