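import Mathlib
import Pool.Agent.Work.MP_62db8e_nt.Check
/-! The positive semidefiniteness of the two certificate matrices. -/
namespace MinOverlap
open Finset

theorem sumTo_eq (f : ℕ → ℕ) (m : ℕ) : sumTo f m = ∑ k ∈ range m, f k := by
  induction m with
  | zero => rfl
  | succ m ih => rw [Finset.sum_range_succ, ← ih]; rfl

theorem dig_lt (a k : ℕ) : dig a k < 17179869184 := Nat.mod_lt _ (by norm_num)

/-- Extraction of the middle coefficient of a product. -/
theorem mid_general (n m B : ℕ) (hn : 2 ≤ n) (x y : ℕ → ℕ) (hx : ∀ k, x k < m) (hy : ∀ k, y k < m)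
    (hB : n ^ 2 * m ^ 2 < B) :
    (∑ k ∈ range n, x k * B ^ k) * (∑ l ∈ range n, y l * B ^ (n - 1 - l)) / B ^ (n - 1) % B
      = ∑ k ∈ range n, x k * y k := by
  have hBpos : 0 < B := by omega
  set S := ∑ k ∈ range n, x k * y k with hS
  -- expand the product
  have hexp : (∑ k ∈ range n, x k * B ^ k) * (∑ l ∈ range n, y l * B ^ (n - 1 - l))
      = ∑ k ∈ range n, ∑ l ∈ range n, x k * y l * B ^ (k + (n - 1 - l)) := by
    rw [Finset.sum_mul_sum]
    refine Finset.sum_congr rfl fun k _ => Finset.sum_congr rfl fun l _ => ?_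
    rw [pow_add]; ring
  have hsplit : ∀ k ∈ range n, ∀ l ∈ range n, x k * y l * B ^ (k + (n - 1 - l))
      = (if k < l then x k * y l * B ^ (k + (n - 1 - l)) else 0)
        + (if k = l then x k * y l * B ^ (n - 1) else 0)
        + (if l < k then B ^ n * (x k * y l * B ^ (k - l - 1)) else 0) := by
    intro k hk l hl
    rw [mem_range] at hk hl
    rcases lt_trichotomy k l with h | h | h
    · rw [if_pos h, if_neg (by omega), if_neg (by omega)]; ring
    · subst h
      rw [if_neg (lt_irrefl _), if_pos rfl, if_neg (lt_irrefl _)]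
      have : k + (n - 1 - k) = n - 1 := by omega
      rw [this]; ring
    · rw [if_neg (by omega), if_neg (by omega), if_pos h]
      have : k + (n - 1 - l) = n + (k - l - 1) := by omega
      rw [this, pow_add]; ring
  set low := ∑ k ∈ range n, ∑ l ∈ range n, (if k < l then x k * y l * B ^ (k + (n - 1 - l)) else 0) with hlow
  set hi := ∑ k ∈ range n, ∑ l ∈ range n, (if l < k then (x k * y l * B ^ (k - l - 1)) else 0) with hhi
  have hP : (∑ k ∈ range n, x k * B ^ k) * (∑ l ∈ range n, y l * B ^ (n - 1 - l))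
      = low + B ^ (n - 1) * (S + B * hi) := by
    rw [hexp]
    rw [Finset.sum_congr rfl fun k hk => Finset.sum_congr rfl fun l hl => hsplit k hk l hl]
    simp only [Finset.sum_add_distrib]
    have h1 : ∑ k ∈ range n, ∑ l ∈ range n, (if k = l then x k * y l * B ^ (n - 1) else 0)
        = B ^ (n - 1) * S := by
      rw [hS, Finset.mul_sum]
      refine Finset.sum_congr rfl fun k hk => ?_
      rw [Finset.sum_ite_eq, if_pos hk]; ring
    have h2 : ∑ k ∈ range n, ∑ l ∈ range n, (if l < k then B ^ n * (x k * y l * B ^ (k - l - 1)) else 0)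
        = B ^ n * hi := by
      rw [hhi, Finset.mul_sum]
      refine Finset.sum_congr rfl fun k _ => ?_
      rw [Finset.mul_sum]
      refine Finset.sum_congr rfl fun l _ => ?_
      rw [mul_ite, mul_zero]
    rw [h1, h2]
    have h3 : B ^ n = B ^ (n - 1) * B := by
      rw [← pow_succ]; congr 1; omega
    rw [h3]; ring
  have hlowlt : low < B ^ (n - 1) := by
    have h1 : low ≤ ∑ _k ∈ range n, ∑ _l ∈ range n, m ^ 2 * B ^ (n - 2) := by
      rw [hlow]
      refine Finset.sum_le_sum fun k hk => Finset.sum_le_sum fun l hl => ?_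
      rw [mem_range] at hk hl
      split_ifs with h
      · have e1 : x k * y l ≤ m ^ 2 := by
          rw [pow_two]; exact Nat.mul_le_mul (hx k).le (hy l).le
        have e2 : B ^ (k + (n - 1 - l)) ≤ B ^ (n - 2) := Nat.pow_le_pow_right hBpos (by omega)
        exact Nat.mul_le_mul e1 e2
      · exact Nat.zero_le _
    have h2 : ∑ _k ∈ range n, ∑ _l ∈ range n, m ^ 2 * B ^ (n - 2) = (n ^ 2 * m ^ 2) * B ^ (n - 2) := by
      simp only [Finset.sum_const, card_range, smul_eq_mul]; ring
    have h3 : B ^ (n - 1) = B * B ^ (n - 2) := by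
      rw [← pow_succ']; congr 1; omega
    calc low ≤ (n ^ 2 * m ^ 2) * B ^ (n - 2) := h1.trans h2.le
      _ < B * B ^ (n - 2) := Nat.mul_lt_mul_of_pos_right hB (Nat.pow_pos hBpos)
      _ = B ^ (n - 1) := h3.symm
  have hSlt : S < B := by
    have h1 : S ≤ ∑ _k ∈ range n, m ^ 2 := by
      refine Finset.sum_le_sum fun k _ => ?_
      rw [pow_two]; exact Nat.mul_le_mul (hx k).le (hy k).le
    have h2 : ∑ _k ∈ range n, m ^ 2 = n * m ^ 2 := by simp
    have h3 : n * m ^ 2 ≤ n ^ 2 * m ^ 2 := Nat.mul_le_mul_right _ (by nlinarith)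
    omega
  rw [hP, Nat.add_mul_div_left _ _ (Nat.pow_pos hBpos), Nat.div_eq_of_lt hlowlt, zero_add,
    Nat.add_mul_mod_self_left, Nat.mod_eq_of_lt hSlt]

theorem mid_eq (a b : ℕ) : mid (pL a) (pR b) = ∑ k ∈ range 241, dig a k * dig b k := by
  have h := mid_general 241 17179869184 309485009821345068724781056 (by norm_num) (dig a) (dig b)
    (dig_lt a) (dig_lt b) (by norm_num)
  rw [← h]
  have h1 : pL a = ∑ k ∈ range 241, dig a k * 309485009821345068724781056 ^ k := by
    unfold pL
    rw [sumTo_eq]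
    refine Finset.sum_congr rfl fun k _ => ?_
    change dig a k <<< (88 * k) = _
    rw [Nat.shiftLeft_eq, show (309485009821345068724781056 : ℕ) = 2 ^ 88 by norm_num, ← pow_mul]
  have h2 : pR b = ∑ k ∈ range 241, dig b k * 309485009821345068724781056 ^ (241 - 1 - k) := by
    unfold pR
    rw [sumTo_eq]
    refine Finset.sum_congr rfl fun k _ => ?_
    change dig b k <<< (88 * (240 - k)) = _
    rw [Nat.shiftLeft_eq, show (309485009821345068724781056 : ℕ) = 2 ^ 88 by norm_num, ← pow_mul]
  rw [h1, h2]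
  unfold mid
  change (_ * _) >>> 21120 % 309485009821345068724781056 = _
  rw [Nat.shiftRight_eq_div_pow]
  have h3 : (309485009821345068724781056 : ℕ) ^ (241 - 1) = 2 ^ 21120 := by
    rw [show (309485009821345068724781056 : ℕ) = 2 ^ 88 by norm_num, ← pow_mul]
  rw [h3]

theorem pS_eq (a : ℕ) : pS a = ∑ k ∈ range 241, dig a k := by
  unfold pS; rw [sumTo_eq]

end MinOverlap
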