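import Mathlib
import Pool.Agent.Work.MP_62db8e_nt.PsdA
/-! The positive semidefiniteness of the two certificate matrices. -/
namespace MinOverlap
open Finset

/-- signed digit -/
def rr (cols : List ℕ) (k i : ℕ) : ℤ := (dig (cols.getD i 0) k : ℤ) - 8589934592

def ps (i : ℕ) : ℤ := (psN i : ℤ) - 134217728

/-- The target matrix off the diagonal. -/
def mM (i j : ℕ) : ℤ :=
  25200000000000000000 - 12600000000 * (wt (j - i) : ℤ) + 2 * ps i * ps j

theorem rr_sum (cols : List ℕ) (i j : ℕ) :
    ∑ k ∈ range 241, rr cols k i * rr cols k j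
      = (mid (pL (cols.getD i 0)) (pR (cols.getD j 0)) : ℤ)
        - 8589934592 * ((pS (cols.getD i 0) : ℤ) + (pS (cols.getD j 0) : ℤ)) + 17782661287056007757824 := by
  rw [mid_eq, pS_eq, pS_eq]
  push_cast
  unfold rr
  have : ∀ k ∈ range 241, ((dig (cols.getD i 0) k : ℤ) - 8589934592) * ((dig (cols.getD j 0) k : ℤ) - 8589934592)
      = (dig (cols.getD i 0) k : ℤ) * (dig (cols.getD j 0) k : ℤ)
        - 8589934592 * (dig (cols.getD i 0) k : ℤ) - 8589934592 * (dig (cols.getD j 0) k : ℤ)
        + 73786976294838206464 := by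
    intro k _; ring
  rw [Finset.sum_congr rfl this, Finset.sum_add_distrib, Finset.sum_sub_distrib, Finset.sum_sub_distrib,
    ← Finset.mul_sum, ← Finset.mul_sum]
  simp only [Finset.sum_const, card_range, nsmul_eq_mul]
  push_cast
  ring

theorem lhs_cast (i j si sj : ℕ) : (lhs i j si sj : ℤ) =
    25200000000000000000 + 36028797018963968 + 2 * ((psN i : ℤ) * (psN j : ℤ)) + 8589934592 * ((si : ℤ) + sj) := by
  have : lhs i j si sj = (25200000000000000000 + 36028797018963968) + (2 * (psN i * psN j) + 8589934592 * (si + sj)) := rfl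
  rw [this]; push_cast; ring

theorem rhs_cast (i j d : ℕ) : (rhs i j d : ℤ) =
    12600000000 * (wt (j - i) : ℤ) + 17782661287056007757824 + 268435456 * ((psN i : ℤ) + psN j) + d := by
  have : rhs i j d = (12600000000 * wt (j - i) + 17782661287056007757824) + (268435456 * (psN i + psN j) + d) := rfl
  rw [this]; push_cast; ring

theorem err_eq (cols : List ℕ) (i j : ℕ) :
    mM i j - ∑ k ∈ range 241, rr cols k i * rr cols k j
      = (lhs i j (pS (cols.getD i 0)) (pS (cols.getD j 0)) : ℤ)
        - (rhs i j (mid (pL (cols.getD i 0)) (pR (cols.getD j 0))) : ℤ) := by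
  rw [rr_sum, lhs_cast, rhs_cast]
  unfold mM ps
  ring

theorem off_bound (dg : ℕ → ℕ) (cols : List ℕ) (hlen : cols.length = 241) (h : allCols chkP (chkD dg) cols cols 0 = true)
    (i j : ℕ) (hij : i < j) (hj : j < 241) :
    |mM i j - ∑ k ∈ range 241, rr cols k i * rr cols k j| ≤ 6200000000 := by
  obtain ⟨h1, _⟩ := allCols_spec chkP (chkD dg) cols cols 0 h j (by omega)
  rw [zero_add] at h1
  have h2 := allRow_spec _ _ _ _ _ h1 i (by rw [List.length_take]; omega)
  have h3 : (cols.take j).getD i 0 = cols.getD i 0 := by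
    rw [List.getD_eq_getElem?_getD, List.getD_eq_getElem?_getD, List.getElem?_take_of_lt hij]
  rw [zero_add, h3] at h2
  rw [err_eq]
  unfold chkP chkPair at h2
  split at h2
  · rename_i h4
    have h4' := Nat.le_of_ble_eq_true h4
    have h5' := Nat.le_of_ble_eq_true h2
    have h4 : lhs i j (pS (cols.getD i 0)) (pS (cols.getD j 0))
      ≤ rhs i j (mid (pL (cols.getD i 0)) (pR (cols.getD j 0))) + 6200000000 := h4'
    have h5 : rhs i j (mid (pL (cols.getD i 0)) (pR (cols.getD j 0)))
      ≤ lhs i j (pS (cols.getD i 0)) (pS (cols.getD j 0)) + 6200000000 := h5'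
    rw [abs_le]
    constructor <;> [skip; skip] <;> · zify at h4 h5; linarith
  · cases h2

theorem diag_bound (dg : ℕ → ℕ) (cols : List ℕ) (hlen : cols.length = 241) (h : allCols chkP (chkD dg) cols cols 0 = true)
    (j : ℕ) (hj : j < 241) :
    1494200000000 ≤ mM j j + 25200000000 * (dg j : ℤ) - ∑ k ∈ range 241, rr cols k j * rr cols k j := by
  obtain ⟨_, h1⟩ := allCols_spec chkP (chkD dg) cols cols 0 h j (by omega)
  rw [zero_add] at h1
  have h2 : rhs j j (mid (pL (cols.getD j 0)) (pR (cols.getD j 0))) + 1494200000000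
      ≤ lhs j j (pS (cols.getD j 0)) (pS (cols.getD j 0)) + 25200000000 * dg j := Nat.le_of_ble_eq_true h1
  have h3 := err_eq cols j j
  zify at h2
  linarith

theorem wt_zero : wt 0 = 0 := by decide +kernel

/-- The certificate inequality. -/
theorem cert_ineq (dg : ℕ → ℕ) (cols : List ℕ) (hlen : cols.length = 241) (h : allCols chkP (chkD dg) cols cols 0 = true)
    (G : ℕ → ℤ) (hG : ∑ i ∈ range 241, G i = 0) :
    12600000000 * ∑ i ∈ range 241, ∑ j ∈ range 241, (wt (j - i) : ℤ) * (G i * G j)
      ≤ 12600000000 * ∑ i ∈ range 241, (dg i : ℤ) * G i ^ 2 + (∑ i ∈ range 241, ps i * G i) ^ 2 := by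
  -- symmetric matrix
  set Ms : ℕ → ℕ → ℤ := fun i j => if i ≤ j then mM i j else mM j i with hMs
  have hMs' : ∀ i j, Ms i j = 25200000000000000000 - 12600000000 * ((wt (j - i) : ℤ) + (wt (i - j) : ℤ)) + 2 * ps i * ps j := by
    intro i j
    rw [hMs]
    dsimp only
    split_ifs with hij
    · have : i - j = 0 := by omega
      rw [this, wt_zero]; unfold mM; push_cast; ring
    · have : j - i = 0 := by omega
      rw [this, wt_zero]; unfold mM; push_cast; ring
  set E : ℕ → ℕ → ℤ := fun i j => Ms i j + (if i = j then 25200000000 * (dg i : ℤ) else 0)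
    - ∑ k ∈ range 241, rr cols k i * rr cols k j with hE
  have hEoff : ∀ i ∈ range 241, ∀ j ∈ range 241, i ≠ j → |E i j| ≤ 6200000000 := by
    intro i hi j hj hij
    rw [mem_range] at hi hj
    rw [hE]; dsimp only
    rw [if_neg hij, add_zero]
    rcases lt_or_gt_of_ne hij with hlt | hgt
    · rw [hMs]; dsimp only; rw [if_pos hlt.le]
      exact off_bound dg cols hlen h i j hlt hj
    · rw [hMs]; dsimp only; rw [if_neg (by omega)]
      have := off_bound dg cols hlen h j i hgt hi
      rw [Finset.sum_congr rfl fun k _ => mul_comm (rr cols k i) (rr cols k j)]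
      exact this
  have hEdiag : ∀ i ∈ range 241, 1494200000000 ≤ E i i := by
    intro i hi
    rw [mem_range] at hi
    rw [hE]; dsimp only
    rw [if_pos rfl, hMs]; dsimp only; rw [if_pos le_rfl]
    exact diag_bound dg cols hlen h i hi
  -- positivity of E form
  have hEpos : 0 ≤ ∑ i ∈ range 241, ∑ j ∈ range 241, E i j * (G i * G j) := by
    have h1 : ∀ i ∈ range 241, ∀ j ∈ range 241,
        (if i = j then 1494200000000 * G i ^ 2 else 0) - 6200000000 * (|G i| * |G j|) ≤ E i j * (G i * G j) := by
      intro i hi j hj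
      split_ifs with hij
      · subst hij
        have := hEdiag i hi
        have h2 : 0 ≤ |G i| * |G i| := mul_nonneg (abs_nonneg _) (abs_nonneg _)
        nlinarith [sq_nonneg (G i)]
      · have h3 := hEoff i hi j hj hij
        have h4 : |E i j * (G i * G j)| ≤ 6200000000 * (|G i| * |G j|) := by
          rw [abs_mul, abs_mul]
          exact mul_le_mul_of_nonneg_right h3 (mul_nonneg (abs_nonneg _) (abs_nonneg _))
        have := neg_abs_le (E i j * (G i * G j))
        linarith
    have h2 : ∑ i ∈ range 241, ∑ j ∈ range 241,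
        ((if i = j then 1494200000000 * G i ^ 2 else 0) - 6200000000 * (|G i| * |G j|))
        ≤ ∑ i ∈ range 241, ∑ j ∈ range 241, E i j * (G i * G j) :=
      Finset.sum_le_sum fun i hi => Finset.sum_le_sum fun j hj => h1 i hi j hj
    refine le_trans ?_ h2
    have h3 : ∑ i ∈ range 241, ∑ j ∈ range 241,
        ((if i = j then 1494200000000 * G i ^ 2 else 0) - 6200000000 * (|G i| * |G j|))
        = 1494200000000 * ∑ i ∈ range 241, |G i| ^ 2 - 6200000000 * (∑ i ∈ range 241, |G i|) ^ 2 := by
      simp only [Finset.sum_sub_distrib]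
      congr 1
      · rw [Finset.mul_sum]
        refine Finset.sum_congr rfl fun i hi => ?_
        rw [Finset.sum_ite_eq, if_pos hi, sq_abs]
      · rw [sq, Finset.sum_mul_sum, Finset.mul_sum]
        refine Finset.sum_congr rfl fun i _ => ?_
        rw [Finset.mul_sum]
    rw [h3]
    have h4 := sq_sum_le_card_mul_sum_sq (s := range 241) (f := fun i => |G i|)
    rw [card_range] at h4
    push_cast at h4
    linarith
  -- the sum of squares part
  have hRpos : 0 ≤ ∑ i ∈ range 241, ∑ j ∈ range 241, (∑ k ∈ range 241, rr cols k i * rr cols k j) * (G i * G j) := by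
    have : ∑ i ∈ range 241, ∑ j ∈ range 241, (∑ k ∈ range 241, rr cols k i * rr cols k j) * (G i * G j)
        = ∑ k ∈ range 241, (∑ i ∈ range 241, rr cols k i * G i) ^ 2 := by
      calc _ = ∑ i ∈ range 241, ∑ j ∈ range 241, ∑ k ∈ range 241, (rr cols k i * G i) * (rr cols k j * G j) := by
            refine Finset.sum_congr rfl fun i _ => Finset.sum_congr rfl fun j _ => ?_
            rw [Finset.sum_mul]
            exact Finset.sum_congr rfl fun k _ => by ring
        _ = ∑ i ∈ range 241, ∑ k ∈ range 241, ∑ j ∈ range 241, (rr cols k i * G i) * (rr cols k j * G j) :=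
            Finset.sum_congr rfl fun i _ => Finset.sum_comm
        _ = ∑ k ∈ range 241, ∑ i ∈ range 241, ∑ j ∈ range 241, (rr cols k i * G i) * (rr cols k j * G j) :=
            Finset.sum_comm
        _ = _ := by
            refine Finset.sum_congr rfl fun k _ => ?_
            rw [sq, Finset.sum_mul_sum]
    rw [this]
    exact Finset.sum_nonneg fun k _ => sq_nonneg _
  -- total form
  have htot : ∑ i ∈ range 241, ∑ j ∈ range 241, E i j * (G i * G j)
      + ∑ i ∈ range 241, ∑ j ∈ range 241, (∑ k ∈ range 241, rr cols k i * rr cols k j) * (G i * G j)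
      = 25200000000000000000 * (∑ i ∈ range 241, G i) ^ 2
        - 12600000000 * (∑ i ∈ range 241, ∑ j ∈ range 241, (wt (j - i) : ℤ) * (G i * G j)
          + ∑ i ∈ range 241, ∑ j ∈ range 241, (wt (i - j) : ℤ) * (G i * G j))
        + 2 * (∑ i ∈ range 241, ps i * G i) ^ 2
        + 25200000000 * ∑ i ∈ range 241, (dg i : ℤ) * G i ^ 2 := by
    rw [← Finset.sum_add_distrib]
    have h1 : ∀ i ∈ range 241, (∑ j ∈ range 241, E i j * (G i * G j)
        + ∑ j ∈ range 241, (∑ k ∈ range 241, rr cols k i * rr cols k j) * (G i * G j))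
        = ∑ j ∈ range 241, (25200000000000000000 * (G i * G j)
          - 12600000000 * ((wt (j - i) : ℤ) * (G i * G j) + (wt (i - j) : ℤ) * (G i * G j))
          + 2 * ((ps i * G i) * (ps j * G j))
          + (if i = j then 25200000000 * ((dg i : ℤ) * G i ^ 2) else 0)) := by
      intro i _
      rw [← Finset.sum_add_distrib]
      refine Finset.sum_congr rfl fun j _ => ?_
      rw [hE]; dsimp only
      rw [hMs']
      split_ifs with hij
      · subst hij; ring
      · ring
    rw [Finset.sum_congr rfl h1]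
    simp only [Finset.sum_add_distrib, Finset.sum_sub_distrib]
    congr 1
    · congr 1
      · congr 1
        · rw [sq, Finset.sum_mul_sum, Finset.mul_sum]
          exact Finset.sum_congr rfl fun i _ => by rw [Finset.mul_sum]
        · rw [← Finset.sum_add_distrib, Finset.mul_sum]
          refine Finset.sum_congr rfl fun i _ => ?_
          rw [← Finset.sum_add_distrib, Finset.mul_sum]
      · rw [sq, Finset.sum_mul_sum, Finset.mul_sum]
        exact Finset.sum_congr rfl fun i _ => by rw [Finset.mul_sum]
    · rw [Finset.mul_sum]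
      refine Finset.sum_congr rfl fun i hi => ?_
      rw [Finset.sum_ite_eq, if_pos hi]
  have hcomm : ∑ i ∈ range 241, ∑ j ∈ range 241, (wt (i - j) : ℤ) * (G i * G j)
      = ∑ i ∈ range 241, ∑ j ∈ range 241, (wt (j - i) : ℤ) * (G i * G j) := by
    rw [Finset.sum_comm]
    exact Finset.sum_congr rfl fun i _ => Finset.sum_congr rfl fun j _ => by ring
  rw [hcomm, hG] at htot
  have hfin := add_nonneg hEpos hRpos
  rw [htot] at hfin
  linarith

end MinOverlap
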