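import Mathlib
import Pool.Agent.Work.MP_62db8e_nt.Psd
import Pool.Agent.Work.MP_62db8e_nt.Chk
import Pool.Agent.Work.MP_62db8e_nt.Comb3
/-! Numerical facts about the certificate. -/
namespace MinOverlap
open Finset

def allTo (P : ℕ → Bool) : ℕ → Bool
  | 0 => true
  | k + 1 => match P k with
    | true => allTo P k
    | false => false

theorem allTo_spec (P : ℕ → Bool) (n : ℕ) (h : allTo P n = true) : ∀ k < n, P k = true := by
  induction n with
  | zero => intro k hk; exact absurd hk (Nat.not_lt_zero _)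
  | succ n ih =>
    have hc : allTo P (n + 1) = (match P n with | true => allTo P n | false => false) := rfl
    rw [hc] at h
    have hp : P n = true := by
      revert h
      cases P n
      · exact fun h => h
      · exact fun _ => rfl
    rw [hp] at h
    intro k hk
    rcases Nat.lt_succ_iff_lt_or_eq.1 hk with h1 | h1
    · exact ih h k h1
    · rw [h1]; exact hp

theorem wt_top : wt 240 = 0 := by decide +kernel
theorem wt_sum' : sumTo wt 240 = 100000000 := by decide +kernel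
theorem wt_A0' : sumTo (fun i => sumTo (fun j => wt (Nat.sub j i)) 240) 240 = 18510074464 := by decide +kernel
theorem dg0_sum' : sumTo (fun i => dg0 (Nat.add 1 i)) 239 = 228703644 := by decide +kernel
theorem dg1_sum' : sumTo (fun i => dg1 (Nat.add 1 i)) 239 = 228572511 := by decide +kernel
theorem dg0_0 : dg0 0 = 84458247 := by decide +kernel
theorem dg0_N : dg0 240 = 13252127 := by decide +kernel
theorem dg1_0 : dg1 0 = 31433780 := by decide +kernel
theorem dg1_N : dg1 240 = 18780850 := by decide +kernel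
theorem psN_0 : psN 0 = 231537989 := by decide +kernel
theorem psN_N : psN 240 = 36897467 := by decide +kernel

theorem ps_sym_chk : allTo (fun i => Nat.beq (Nat.add (psN (Nat.sub 240 i)) (psN i)) 268435456) 241 = true := by
  decide +kernel
theorem ps_mono_chk : allTo (fun i => Nat.ble (psN (Nat.succ i)) (psN i)) 240 = true := by decide +kernel
theorem ps_w1_chk : allTo (fun i => Nat.ble (psN i) (Nat.add (psN (Nat.succ i)) (wt i))) 120 = true := by
  decide +kernel
theorem ps_w2_chk : allTo (fun i => Nat.ble (psN i) (Nat.add (psN (Nat.succ i)) (wt (Nat.succ i)))) 120 = true := by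
  decide +kernel
/-- the absolute value of `ps` -/
def psA (i : ℕ) : ℕ := Nat.add (Nat.sub (psN i) 134217728) (Nat.sub 134217728 (psN i))
theorem psA_sum' : sumTo psA 240 = 10688041827 := by decide +kernel

def Wz (k : ℕ) : ℤ := (wt k : ℤ)
def Dz0 (k : ℕ) : ℤ := (dg0 k : ℤ)
def Dz1 (k : ℕ) : ℤ := (dg1 k : ℤ)

theorem Wz_zero : Wz 0 = 0 := by unfold Wz; rw [wt_zero]; rfl
theorem Wz_top : Wz 240 = 0 := by unfold Wz; rw [wt_top]; rfl
theorem Wz_sum : ∑ i ∈ range 240, Wz i = 100000000 := by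
  unfold Wz
  rw [← Nat.cast_sum, ← sumTo_eq, wt_sum']; rfl
theorem Wz_A0 : ∑ i ∈ range 240, ∑ j ∈ range 240, Wz (j - i) = 18510074464 := by
  have h1 : ∑ i ∈ range 240, ∑ j ∈ range 240, wt (j - i) = 18510074464 := by
    rw [← wt_A0', sumTo_eq]
    refine Finset.sum_congr rfl fun i _ => ?_
    rw [sumTo_eq]; rfl
  unfold Wz
  have h2 : ∑ i ∈ range 240, ∑ j ∈ range 240, (wt (j - i) : ℤ) = ((∑ i ∈ range 240, ∑ j ∈ range 240, wt (j - i) : ℕ) : ℤ) := by
    push_cast; rfl
  rw [h2, h1]; rfl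
theorem Dz0_sum : ∑ i ∈ Ico 1 240, Dz0 i = 228703644 := by
  unfold Dz0
  rw [← Nat.cast_sum, Finset.sum_Ico_eq_sum_range]
  have : ∑ k ∈ range (240 - 1), dg0 (1 + k) = 228703644 := by
    rw [← dg0_sum', sumTo_eq]; rfl
  rw [this]; rfl
theorem Dz1_sum : ∑ i ∈ Ico 1 240, Dz1 i = 228572511 := by
  unfold Dz1
  rw [← Nat.cast_sum, Finset.sum_Ico_eq_sum_range]
  have : ∑ k ∈ range (240 - 1), dg1 (1 + k) = 228572511 := by
    rw [← dg1_sum', sumTo_eq]; rfl
  rw [this]; rfl

theorem ps_sym : ∀ i ≤ 240, ps (240 - i) = - ps i := by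
  intro i hi
  have h1 := allTo_spec _ _ ps_sym_chk i (by omega)
  have h2 : psN (240 - i) + psN i = 268435456 := Nat.eq_of_beq_eq_true h1
  unfold ps
  have h3 : (psN (240 - i) : ℤ) + psN i = 268435456 := by exact_mod_cast h2
  linarith

theorem ps_mono : ∀ j < 240, 0 ≤ ps j - ps (j + 1) := by
  intro j hj
  have h1 := allTo_spec _ _ ps_mono_chk j hj
  have h2 : psN (j + 1) ≤ psN j := Nat.le_of_ble_eq_true h1
  unfold ps
  have h3 : (psN (j + 1) : ℤ) ≤ psN j := by exact_mod_cast h2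
  linarith

theorem ps_w : ∀ j < 120, ps j - ps (j + 1) ≤ Wz j ∧ ps j - ps (j + 1) ≤ Wz (j + 1) := by
  intro j hj
  have h1 := allTo_spec _ _ ps_w1_chk j hj
  have h2 : psN j ≤ psN (j + 1) + wt j := Nat.le_of_ble_eq_true h1
  have h3 := allTo_spec _ _ ps_w2_chk j hj
  have h4 : psN j ≤ psN (j + 1) + wt (j + 1) := Nat.le_of_ble_eq_true h3
  unfold ps Wz
  have h5 : (psN j : ℤ) ≤ psN (j + 1) + wt j := by exact_mod_cast h2
  have h6 : (psN j : ℤ) ≤ psN (j + 1) + wt (j + 1) := by exact_mod_cast h4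
  constructor <;> linarith

theorem ps_abs (i : ℕ) : |ps i| = (psA i : ℤ) := by
  unfold ps
  have h : psA i = (psN i - 134217728) + (134217728 - psN i) := rfl
  rw [h]
  rcases le_total (psN i) 134217728 with h1 | h1
  · rw [abs_of_nonpos (by have : (psN i : ℤ) ≤ 134217728 := by exact_mod_cast h1
                          linarith)]
    rw [Nat.sub_eq_zero_of_le h1, zero_add, Nat.cast_sub h1]; push_cast; ring
  · rw [abs_of_nonneg (by have : (134217728 : ℤ) ≤ psN i := by exact_mod_cast h1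
                          linarith)]
    rw [Nat.sub_eq_zero_of_le h1, add_zero, Nat.cast_sub h1]; push_cast; ring

theorem ps_bound : ∑ i ∈ range 240, |ps i| ≤ 12600000000 := by
  have h1 : ∑ i ∈ range 240, |ps i| = ((∑ i ∈ range 240, psA i : ℕ) : ℤ) := by
    rw [Nat.cast_sum]
    exact Finset.sum_congr rfl fun i _ => ps_abs i
  rw [h1, ← sumTo_eq, psA_sum']; norm_num

theorem cert0 (G : ℕ → ℤ) (hG : ∑ i ∈ range (240 + 1), G i = 0) :
    12600000000 * ∑ i ∈ range (240 + 1), ∑ j ∈ range (240 + 1), Wz (j - i) * (G i * G j)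
      ≤ 12600000000 * ∑ i ∈ range (240 + 1), Dz0 i * G i ^ 2 + (∑ i ∈ range (240 + 1), ps i * G i) ^ 2 :=
  cert_ineq dg0 cols0 len0 chk0 G hG

theorem cert1 (G : ℕ → ℤ) (hG : ∑ i ∈ range (240 + 1), G i = 0) :
    12600000000 * ∑ i ∈ range (240 + 1), ∑ j ∈ range (240 + 1), Wz (j - i) * (G i * G j)
      ≤ 12600000000 * ∑ i ∈ range (240 + 1), Dz1 i * G i ^ 2 + (∑ i ∈ range (240 + 1), ps i * G i) ^ 2 :=
  cert_ineq dg1 cols1 len1 chk1 G hG

/-- The main inequality with the numerical certificate. -/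
theorem num_ineq (n : ℕ) (hn : 0 < n) (mm : ℤ) (a b : ℕ → ℤ)
    (ha : ∀ x, 240 * (4 * (4 * n)) ≤ x → a x = 0) (hb : ∀ x, 240 * (4 * (4 * n)) ≤ x → b x = 0)
    (hab : ∀ x < 240 * (4 * (4 * n)), a x + b x = 1) (hab1 : ∀ x, |a x - b x| ≤ 1)
    (hS : Sc a b (240 * (4 * (4 * n))) = 0)
    (h1 : ∀ p, Op a b (240 * (4 * (4 * n))) p ≤ 1920 * mm) (h2 : ∀ p, Op b a (240 * (4 * (4 * n))) p ≤ 1920 * mm) :
    3806 * (n : ℤ) ≤ 10000 * mm := by
  have h := main_ineq 240 (4 * n) 120 (by omega) rfl (by norm_num) 12600000000 100000000 (1920 * mm) (by norm_num)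
    Wz ps Dz0 Dz1 a b Wz_zero Wz_top (fun i => Int.natCast_nonneg _) (fun i => Int.natCast_nonneg _)
    (fun i => Int.natCast_nonneg _) Wz_sum ps_sym ps_mono ps_w ps_bound cert0 cert1 ha hb hab hab1 hS h1 h2
  rw [Wz_A0, Dz0_sum, Dz1_sum] at h
  have e0 : Dz0 0 = 84458247 := by unfold Dz0; rw [dg0_0]; rfl
  have e1 : Dz0 240 = 13252127 := by unfold Dz0; rw [dg0_N]; rfl
  have e2 : Dz1 0 = 31433780 := by unfold Dz1; rw [dg1_0]; rfl
  have e3 : Dz1 240 = 18780850 := by unfold Dz1; rw [dg1_N]; rfl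
  have e4 : ps 0 = 97320261 := by unfold ps; rw [psN_0]; norm_num
  have e5 : ps 240 = -97320261 := by unfold ps; rw [psN_N]; norm_num
  rw [e0, e1, e2, e3, e4, e5] at h
  push_cast at h
  have hn1 : (1 : ℤ) ≤ n := by exact_mod_cast hn
  have hn0 : (0 : ℤ) < n := by linarith
  have hsq : (0 : ℤ) < (n : ℤ) ^ 2 := by positivity
  -- divide by n^2
  have key : (n : ℤ) ^ 2 * (3806 * (n : ℤ)) ≤ (n : ℤ) ^ 2 * (10000 * mm) := by
    have hn3 : (n : ℤ) ≤ (n : ℤ) ^ 3 := by nlinarith [sq_nonneg ((n : ℤ) - 1)]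
    nlinarith
  exact le_of_mul_le_mul_left key hsq

end MinOverlap
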